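import Mathlib

/-! Trees of targets with transition weights: if every node is good, the limit weights of the
targets sum to one. -/

set_option autoImplicit false

open Filter Topology Finset

namespace Pool.Agent.Q83.Tree

/-- A tree of targets. `T j` are the targets at level `j`, `par j y` is the parent at level `j`
of a target `y ∈ T (j+1)`, and `w j y` is the weight of the step from level `j` to `j+1`. -/
structure Sys (Y : Type*) [DecidableEq Y] where
  T : ℕ → Finset Y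
  mono : ∀ j, T j ⊆ T (j + 1)
  par : ℕ → Y → Y
  par_mem : ∀ j y, y ∈ T (j + 1) → par j y ∈ T j
  par_self : ∀ j y, y ∈ T j → par j y = y
  w : ℕ → Y → ℝ
  w0 : ∀ j y, 0 ≤ w j y
  w1 : ∀ j y, w j y ≤ 1
  compat : ∀ j y i, y ∈ T (j + 1) → i < j → w i y = w i (par j y)
  sum1 : ∀ j, ∀ y ∈ T j, ∑ y' ∈ (T (j + 1)).filter (fun y' => par j y' = y), w j y' = 1

variable {Y : Type*} [DecidableEq Y] (s : Sys Y)

namespace Sys

/-- children -/
def ch (j : ℕ) (y : Y) : Finset Y := (s.T (j + 1)).filter (fun y' => s.par j y' = y)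

/-- partial products -/
noncomputable def WW (j k : ℕ) (y : Y) : ℝ := ∏ i ∈ range k, s.w (j + i) y

theorem WW_zero (j : ℕ) (y : Y) : s.WW j 0 y = 1 := by simp [WW]

theorem WW_succ (j k : ℕ) (y : Y) : s.WW j (k + 1) y = s.WW j k y * s.w (j + k) y :=
  prod_range_succ _ _

theorem WW_add (j k l : ℕ) (y : Y) : s.WW j (k + l) y = s.WW j k y * s.WW (j + k) l y := by
  unfold WW
  rw [prod_range_add]
  simp_rw [add_assoc]

theorem WW_succ' (j k : ℕ) (y : Y) : s.WW j (k + 1) y = s.w j y * s.WW (j + 1) k y := by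
  rw [add_comm k 1, WW_add]
  simp [WW]

theorem WW_nonneg (j k : ℕ) (y : Y) : 0 ≤ s.WW j k y := prod_nonneg fun _ _ => s.w0 _ _

theorem WW_le (j k : ℕ) (y : Y) : s.WW j k y ≤ 1 := prod_le_one (fun _ _ => s.w0 _ _)
  fun _ _ => s.w1 _ _

theorem WW_anti (j : ℕ) (y : Y) : Antitone (fun k => s.WW j k y) := by
  refine antitone_nat_of_succ_le fun k => ?_
  rw [WW_succ]
  exact mul_le_of_le_one_right (s.WW_nonneg _ _ _) (s.w1 _ _)

/-- limit products -/
noncomputable def V (j : ℕ) (y : Y) : ℝ := ⨅ k, s.WW j k y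

theorem bdd (j : ℕ) (y : Y) : BddBelow (Set.range fun k => s.WW j k y) :=
  ⟨0, by rintro _ ⟨k, rfl⟩; exact s.WW_nonneg _ _ _⟩

theorem V_tendsto (j : ℕ) (y : Y) : Tendsto (fun k => s.WW j k y) atTop (𝓝 (s.V j y)) :=
  tendsto_atTop_ciInf (s.WW_anti j y) (s.bdd j y)

theorem V_nonneg (j : ℕ) (y : Y) : 0 ≤ s.V j y := le_ciInf fun _ => s.WW_nonneg _ _ _

theorem V_le_WW (j k : ℕ) (y : Y) : s.V j y ≤ s.WW j k y := ciInf_le (s.bdd j y) k

theorem V_le (j : ℕ) (y : Y) : s.V j y ≤ 1 := (s.V_le_WW j 0 y).trans (s.WW_le _ _ _)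

theorem V_mul (j k : ℕ) (y : Y) : s.V j y = s.WW j k y * s.V (j + k) y := by
  have h1 := (s.V_tendsto (j + k) y).const_mul (s.WW j k y)
  have h2 : Tendsto (fun l => s.WW j (k + l) y) atTop (𝓝 (s.V j y)) := by
    have := (tendsto_add_atTop_iff_nat k).2 (s.V_tendsto j y)
    simpa [add_comm] using this
  simp_rw [WW_add] at h2
  exact tendsto_nhds_unique h2 h1

theorem V_succ (j : ℕ) (y : Y) : s.V j y = s.w j y * s.V (j + 1) y := by
  have := s.V_mul j 1 y
  simpa [WW] using this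

/-- the transition operator -/
noncomputable def P (j : ℕ) (φ : Y → ℝ) (y : Y) : ℝ := ∑ y' ∈ s.ch j y, s.w j y' * φ y'

theorem P_mono (j : ℕ) {φ φ' : Y → ℝ} (y : Y) (h : ∀ y' ∈ s.ch j y, φ y' ≤ φ' y') :
    s.P j φ y ≤ s.P j φ' y :=
  sum_le_sum fun y' hy' => mul_le_mul_of_nonneg_left (h y' hy') (s.w0 _ _)

theorem P_const (j : ℕ) {y : Y} (hy : y ∈ s.T j) (c : ℝ) : s.P j (fun _ => c) y = c := by
  unfold P ch
  rw [← sum_mul, s.sum1 j y hy, one_mul]

theorem self_ch {j : ℕ} {y : Y} (hy : y ∈ s.T j) : y ∈ s.ch j y := by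
  unfold ch
  rw [mem_filter]
  exact ⟨s.mono j hy, s.par_self j y hy⟩

theorem ch_mem {j : ℕ} {y y' : Y} (h : y' ∈ s.ch j y) : y' ∈ s.T (j + 1) := (mem_filter.1 h).1

/-- the loss after `k` more steps -/
noncomputable def L : ℕ → ℕ → Y → ℝ
  | 0, j => fun y => 1 - s.V j y
  | k + 1, j => s.P j (L k (j + 1))

theorem L_nonneg (k : ℕ) : ∀ (j : ℕ) (y : Y), 0 ≤ s.L k j y := by
  induction k with
  | zero => intro j y; exact sub_nonneg.2 (s.V_le j y)
  | succ k ih => intro j y; exact sum_nonneg fun y' _ => mul_nonneg (s.w0 _ _) (ih _ _)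

theorem L_succ_le (k : ℕ) : ∀ (j : ℕ), ∀ y ∈ s.T j, s.L (k + 1) j y ≤ s.L k j y := by
  induction k with
  | zero =>
    intro j y hy
    change s.P j (fun y' => 1 - s.V (j + 1) y') y ≤ 1 - s.V j y
    have h1 : s.P j (fun y' => 1 - s.V (j + 1) y') y
        = 1 - ∑ y' ∈ s.ch j y, s.w j y' * s.V (j + 1) y' := by
      have h2 := s.P_const j hy 1
      unfold P at h2 ⊢
      have h3 : ∑ y' ∈ s.ch j y, s.w j y' * (1 - s.V (j + 1) y')
          = ∑ y' ∈ s.ch j y, s.w j y' * 1 - ∑ y' ∈ s.ch j y, s.w j y' * s.V (j + 1) y' := by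
        rw [← sum_sub_distrib]
        exact sum_congr rfl fun y' _ => by ring
      rw [h3, h2]
    rw [h1, s.V_succ j y]
    have := single_le_sum (f := fun y' => s.w j y' * s.V (j + 1) y')
      (fun y' _ => mul_nonneg (s.w0 _ _) (s.V_nonneg _ _)) (s.self_ch hy)
    linarith
  | succ k ih =>
    intro j y hy
    exact s.P_mono j y fun y' hy' => ih (j + 1) y' (s.ch_mem hy')

theorem L_le_one (k j : ℕ) {y : Y} (hy : y ∈ s.T j) : s.L k j y ≤ 1 := by
  induction k with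
  | zero => change 1 - s.V j y ≤ 1; linarith [s.V_nonneg j y]
  | succ k ih => exact (s.L_succ_le k j y hy).trans ih

/-- the limit loss -/
noncomputable def LL (j : ℕ) (y : Y) : ℝ := ⨅ k, s.L k j y

theorem LL_tendsto (j : ℕ) {y : Y} (hy : y ∈ s.T j) :
    Tendsto (fun k => s.L k j y) atTop (𝓝 (s.LL j y)) :=
  tendsto_atTop_ciInf (antitone_nat_of_succ_le fun k => s.L_succ_le k j y hy)
    ⟨0, by rintro _ ⟨k, rfl⟩; exact s.L_nonneg _ _ _⟩

theorem LL_nonneg (j : ℕ) (y : Y) : 0 ≤ s.LL j y := le_ciInf fun _ => s.L_nonneg _ _ _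

theorem LL_le_L (k j : ℕ) (y : Y) : s.LL j y ≤ s.L k j y :=
  ciInf_le ⟨0, by rintro _ ⟨k, rfl⟩; exact s.L_nonneg _ _ _⟩ k

theorem LL_le_one (j : ℕ) (y : Y) : s.LL j y ≤ 1 := by
  refine (s.LL_le_L 0 j y).trans ?_
  change 1 - s.V j y ≤ 1
  linarith [s.V_nonneg j y]

theorem LL_rec (j : ℕ) {y : Y} (hy : y ∈ s.T j) : s.LL j y = s.P j (s.LL (j + 1)) y := by
  have h1 : Tendsto (fun k => s.L (k + 1) j y) atTop (𝓝 (s.LL j y)) :=
    (tendsto_add_atTop_iff_nat 1).2 (s.LL_tendsto j hy)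
  have h2 : Tendsto (fun k => s.L (k + 1) j y) atTop (𝓝 (s.P j (s.LL (j + 1)) y)) := by
    change Tendsto (fun k => ∑ y' ∈ s.ch j y, s.w j y' * s.L k (j + 1) y') atTop
      (𝓝 (∑ y' ∈ s.ch j y, s.w j y' * s.LL (j + 1) y'))
    exact tendsto_finsetSum _ fun y' hy' => (s.LL_tendsto (j + 1) (s.ch_mem hy')).const_mul _
  exact tendsto_nhds_unique h1 h2

/-- good nodes -/
inductive Good (δ : ℝ) : ℕ → Y → Prop
  | base (j : ℕ) (y : Y) : δ ≤ s.V j y → Good δ j y
  | step (j : ℕ) (y : Y) : (∀ y' ∈ s.ch j y, Good δ (j + 1) y') → Good δ j y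

theorem mem_add {j : ℕ} {y : Y} (hy : y ∈ s.T j) (k : ℕ) : y ∈ s.T (j + k) := by
  induction k with
  | zero => exact hy
  | succ k ih => exact s.mono _ ih

theorem LL_path {j0 : ℕ} {g : ℝ} (hg : ∀ j, j0 ≤ j → ∀ y ∈ s.T j, s.LL j y ≤ g) {j : ℕ}
    (hj : j0 ≤ j) {y : Y} (hy : y ∈ s.T j) (k : ℕ) :
    s.LL j y ≤ s.WW j k y * s.LL (j + k) y + (1 - s.WW j k y) * g := by
  induction k with
  | zero => simp [WW]
  | succ k ih =>
    refine ih.trans ?_
    have hyk := s.mem_add hy k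
    have h1 : s.LL (j + k) y ≤ s.w (j + k) y * s.LL (j + k + 1) y + (1 - s.w (j + k) y) * g := by
      rw [s.LL_rec _ hyk]
      unfold P
      rw [← add_sum_erase _ _ (s.self_ch hyk)]
      have h2 : ∑ y' ∈ (s.ch (j + k) y).erase y, s.w (j + k) y' * s.LL (j + k + 1) y'
          ≤ ∑ y' ∈ (s.ch (j + k) y).erase y, s.w (j + k) y' * g := by
        refine sum_le_sum fun y' hy' => mul_le_mul_of_nonneg_left ?_ (s.w0 _ _)
        exact hg _ (by omega) y' (s.ch_mem (mem_of_mem_erase hy'))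
      have h3 : ∑ y' ∈ (s.ch (j + k) y).erase y, s.w (j + k) y' = 1 - s.w (j + k) y := by
        have := s.P_const (j + k) hyk 1
        unfold P at this
        rw [← add_sum_erase _ _ (s.self_ch hyk)] at this
        simp only [mul_one] at this
        linarith
      rw [← sum_mul, h3] at h2
      linarith
    have h4 := mul_le_mul_of_nonneg_left h1 (s.WW_nonneg j k y)
    rw [WW_succ]
    have e : j + (k + 1) = j + k + 1 := by ring
    rw [e]
    nlinarith

theorem LL_good {δ : ℝ} (hδ : 0 < δ) {j0 : ℕ} {g : ℝ} (hg0 : 0 ≤ g)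
    (hg : ∀ j, j0 ≤ j → ∀ y ∈ s.T j, s.LL j y ≤ g) {j : ℕ} {y : Y} (h : s.Good δ j y) :
    j0 ≤ j → y ∈ s.T j → s.LL j y ≤ (1 - δ) * g := by
  induction h with
  | base j y hV =>
    intro hj hy
    have hVp : 0 < s.V j y := hδ.trans_le hV
    have h1 : Tendsto (fun k => s.V (j + k) y) atTop (𝓝 1) := by
      have h2 : ∀ k, s.V (j + k) y = s.V j y / s.WW j k y := by
        intro k
        have h3 := s.V_mul j k y
        have h4 : 0 < s.WW j k y := hVp.trans_le (s.V_le_WW j k y)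
        field_simp
        linarith
      simp_rw [h2]
      have := (tendsto_const_nhds (x := s.V j y)).div (s.V_tendsto j y) hVp.ne'
      rwa [div_self hVp.ne'] at this
    have h2 : ∀ k, s.LL j y ≤ s.WW j k y * (1 - s.V (j + k) y) + (1 - s.WW j k y) * g := by
      intro k
      refine (s.LL_path hg hj hy k).trans ?_
      have := mul_le_mul_of_nonneg_left (s.LL_le_L 0 (j + k) y) (s.WW_nonneg j k y)
      change _ ≤ s.WW j k y * (1 - s.V (j + k) y) at this
      linarith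
    have h3 : Tendsto (fun k => s.WW j k y * (1 - s.V (j + k) y) + (1 - s.WW j k y) * g) atTop
        (𝓝 (s.V j y * (1 - 1) + (1 - s.V j y) * g)) :=
      ((s.V_tendsto j y).mul (tendsto_const_nhds.sub h1)).add
        ((tendsto_const_nhds.sub (s.V_tendsto j y)).mul_const g)
    have h4 := ge_of_tendsto' h3 h2
    nlinarith
  | step j y _ ih =>
    intro hj hy
    rw [s.LL_rec j hy, ← s.P_const j hy ((1 - δ) * g)]
    exact s.P_mono j y fun y' hy' => ih y' hy' (by omega) (s.ch_mem hy')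

theorem LL_zero {δ : ℝ} (hδ : 0 < δ) {j0 : ℕ} (hG : ∀ j, j0 ≤ j → ∀ y ∈ s.T j, s.Good δ j y)
    {j : ℕ} (hj : j0 ≤ j) {y : Y} (hy : y ∈ s.T j) : s.LL j y = 0 := by
  set A : Set ℝ := {x | x = 0 ∨ ∃ j, j0 ≤ j ∧ ∃ y ∈ s.T j, x = s.LL j y} with hA
  have hbd : BddAbove A := by
    refine ⟨1, ?_⟩
    rintro x (rfl | ⟨j, _, y, _, rfl⟩)
    · norm_num
    · exact s.LL_le_one j y
  have hne : A.Nonempty := ⟨0, Or.inl rfl⟩
  set g := sSup A with hgdef
  have hg0 : 0 ≤ g := le_csSup hbd (Or.inl rfl)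
  have hg : ∀ j, j0 ≤ j → ∀ y ∈ s.T j, s.LL j y ≤ g := fun j hj y hy =>
    le_csSup hbd (Or.inr ⟨j, hj, y, hy, rfl⟩)
  have h1 : g ≤ max 0 ((1 - δ) * g) := by
    refine csSup_le hne ?_
    rintro x (rfl | ⟨j, hj, y, hy, rfl⟩)
    · exact le_max_left _ _
    · exact (s.LL_good hδ hg0 hg (hG j hj y hy) hj hy).trans (le_max_right _ _)
  have h2 : g = 0 := by
    rcases le_or_gt g 0 with h | h
    · exact le_antisymm h hg0
    · exfalso
      rcases le_max_iff.1 h1 with h3 | h3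
      · linarith
      · nlinarith
  exact le_antisymm (h2 ▸ hg j hj y hy) (s.LL_nonneg j y)

/-- expectation at level `n` -/
noncomputable def E (n : ℕ) (φ : Y → ℝ) : ℝ := ∑ y ∈ s.T n, s.WW 0 n y * φ y

theorem WW_compat (j : ℕ) {y : Y} (hy : y ∈ s.T (j + 1)) : s.WW 0 j y = s.WW 0 j (s.par j y) := by
  unfold WW
  refine prod_congr rfl fun i hi => ?_
  rw [zero_add]
  exact s.compat j y i hy (mem_range.1 hi)

theorem E_succ (n : ℕ) (φ : Y → ℝ) : s.E (n + 1) φ = s.E n (s.P n φ) := by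
  unfold E P ch
  rw [← sum_fiberwise_of_maps_to (s := s.T (n + 1)) (t := s.T n) (g := s.par n)
    (fun y hy => s.par_mem n y hy)]
  refine sum_congr rfl fun y _ => ?_
  rw [mul_sum]
  refine sum_congr rfl fun y' hy' => ?_
  rw [mem_filter] at hy'
  rw [WW_succ, zero_add, s.WW_compat n hy'.1, hy'.2]
  ring

theorem E_L (k : ℕ) : ∀ j, s.E (j + k) (fun y => 1 - s.V (j + k) y) = s.E j (s.L k j) := by
  induction k with
  | zero => intro j; rfl
  | succ k ih =>
    intro j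
    have := ih (j + 1)
    have e : j + (k + 1) = j + 1 + k := by ring
    rw [e, this, E_succ]
    rfl

theorem E_one (h0 : (s.T 0).card = 1) (n : ℕ) : s.E n (fun _ => 1) = 1 := by
  induction n with
  | zero => simp [E, WW, h0]
  | succ n ih =>
    rw [E_succ]
    refine Eq.trans ?_ ih
    unfold E
    exact sum_congr rfl fun y hy => by rw [s.P_const n hy]

/-- main theorem of the abstract part -/
theorem tree_sum (h0 : (s.T 0).card = 1) {δ : ℝ} (hδ : 0 < δ) {j0 : ℕ}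
    (hG : ∀ j, j0 ≤ j → ∀ y ∈ s.T j, s.Good δ j y) :
    Tendsto (fun n => ∑ y ∈ s.T n, s.V 0 y) atTop (𝓝 1) := by
  have h1 : Tendsto (fun k => s.E j0 (s.L k j0)) atTop (𝓝 0) := by
    have : Tendsto (fun k => ∑ y ∈ s.T j0, s.WW 0 j0 y * s.L k j0 y) atTop
        (𝓝 (∑ y ∈ s.T j0, s.WW 0 j0 y * s.LL j0 y)) :=
      tendsto_finsetSum _ fun y hy => (s.LL_tendsto j0 hy).const_mul _
    rwa [sum_eq_zero (fun y hy => by rw [s.LL_zero hδ hG le_rfl hy, mul_zero])] at this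
  have h2 : ∀ n, ∑ y ∈ s.T n, s.V 0 y = 1 - s.E n (fun y => 1 - s.V n y) := by
    intro n
    have h3 := s.E_one h0 n
    unfold E at h3 ⊢
    have h4 : ∑ y ∈ s.T n, s.WW 0 n y * (1 - s.V n y)
        = ∑ y ∈ s.T n, s.WW 0 n y * 1 - ∑ y ∈ s.T n, s.V 0 y := by
      rw [← sum_sub_distrib]
      refine sum_congr rfl fun y _ => ?_
      rw [s.V_mul 0 n y, zero_add]
      ring
    rw [h4, h3]
    ring
  have h3 : Tendsto (fun k => ∑ y ∈ s.T (j0 + k), s.V 0 y) atTop (𝓝 (1 - 0)) := by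
    simp_rw [h2, s.E_L]
    exact tendsto_const_nhds.sub h1
  rw [sub_zero] at h3
  have h4 : Tendsto (fun k => ∑ y ∈ s.T (k + j0), s.V 0 y) atTop (𝓝 1) := by
    simpa [add_comm] using h3
  exact (tendsto_add_atTop_iff_nat j0).1 h4

end Sys

end Pool.Agent.Q83.Tree
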