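import Pool.Agent.Q83.Tree.Low

/-! The complementary tree: combinatorics. -/

set_option autoImplicit false

open Finset

namespace Pool.Agent.Q83.Tree

/-- products `P k = N 0 ⋯ N (k-1)` -/
def PP (N : ℕ → ℕ) (k : ℕ) : ℕ := ∏ i ∈ range k, N i

variable {N : ℕ → ℕ} (hN : ∀ k, 2 ≤ N k)

theorem PP_succ (N : ℕ → ℕ) (k : ℕ) : PP N (k + 1) = N k * PP N k := by
  unfold PP; rw [prod_range_succ, mul_comm]

include hN in
theorem PP_pos (k : ℕ) : 0 < PP N k := prod_pos fun i _ => by have := hN i; omega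

theorem PP_dvd {i j : ℕ} (h : i ≤ j) : (PP N i : ℤ) ∣ PP N j := by
  induction j, h using Nat.le_induction with
  | base => exact dvd_rfl
  | succ j _ ih => exact ih.trans (by rw [PP_succ]; push_cast; exact Dvd.intro_left _ rfl)

include hN in
theorem PP_ge (k : ℕ) : 2 ^ k ≤ PP N k := by
  induction k with
  | zero => simp [PP]
  | succ k ih =>
    rw [PP_succ, pow_succ, mul_comm]
    exact Nat.mul_le_mul (hN k) ih

/-- `n` has type `k` -/
def Ty (N : ℕ → ℕ) (k : ℕ) (n : ℤ) : Prop := (PP N k : ℤ) ∣ n ∧ ¬ (PP N (k + 1) : ℤ) ∣ n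

theorem Ty_unique {k l : ℕ} {n : ℤ} (h : Ty N k n) (h' : Ty N l n) : k = l := by
  rcases lt_trichotomy k l with h1 | h1 | h1
  · exact absurd ((PP_dvd h1).trans h'.1) h.2
  · exact h1
  · exact absurd ((PP_dvd h1).trans h.1) h'.2

include hN in
theorem Ty_exists {n : ℤ} (hn : n ≠ 0) : ∃ k, Ty N k n := by
  classical
  have hex : ∃ k, ¬ (PP N (k + 1) : ℤ) ∣ n := by
    refine ⟨n.natAbs, fun h => ?_⟩
    have h1 : PP N (n.natAbs + 1) ≤ n.natAbs :=
      Nat.le_of_dvd (Int.natAbs_pos.2 hn) (Int.natCast_dvd.1 h)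
    have h2 := PP_ge hN (n.natAbs + 1)
    have h3 := Nat.lt_two_pow_self (n := n.natAbs + 1)
    omega
  refine ⟨Nat.find hex, ?_, Nat.find_spec hex⟩
  rcases Nat.eq_zero_or_pos (Nat.find hex) with h0 | h0
  · rw [h0]; simp [PP]
  · obtain ⟨k, hk⟩ : ∃ k, Nat.find hex = k + 1 := ⟨Nat.find hex - 1, by omega⟩
    have := Nat.find_min hex (m := k) (by omega)
    rw [not_not, ← hk] at this
    exact this

theorem Ty_congr {k l : ℕ} (hkl : k < l) {n n' : ℤ} (h : (PP N l : ℤ) ∣ n - n') (hn : Ty N k n) :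
    Ty N k n' := by
  refine ⟨?_, fun h2 => hn.2 ?_⟩
  · have := dvd_sub hn.1 ((PP_dvd hkl.le).trans h)
    simpa using this
  · have := dvd_add ((PP_dvd hkl).trans h) h2
    simpa using this

/-- the set `A`: differences have even type, and it is maximal for this -/
structure EvenMax (N : ℕ → ℕ) (A : Set ℤ) : Prop where
  ne : A.Nonempty
  ev : ∀ a ∈ A, ∀ a' ∈ A, a ≠ a' → ∃ i, Ty N (2 * i) (a - a')
  mx : ∀ c, c ∉ A → ∃ a ∈ A, ¬ ∃ i, Ty N (2 * i) (c - a)

variable {A : Set ℤ} (hA : EvenMax N A)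

include hA in
theorem F1 {j : ℕ} {a c : ℤ} (ha : a ∈ A) (h : (PP N (2 * j) : ℤ) ∣ c - a) :
    ∃ a' ∈ A, (PP N (2 * j + 1) : ℤ) ∣ c - a' := by
  by_contra hcon
  push Not at hcon
  have hc : c ∉ A := fun hc => hcon c hc (by simp)
  obtain ⟨a'', ha'', h2⟩ := hA.mx c hc
  by_cases h3 : (PP N (2 * j) : ℤ) ∣ c - a''
  · exact h2 ⟨j, h3, hcon a'' ha''⟩
  · have hne : a ≠ a'' := fun e => h3 (e ▸ h)
    obtain ⟨i, h4⟩ := hA.ev a ha a'' ha'' hne
    have hij : 2 * i < 2 * j := by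
      by_contra hge
      push Not at hge
      apply h3
      have := dvd_add h ((PP_dvd (N := N) hge).trans h4.1)
      simpa using this
    refine h2 ⟨i, Ty_congr hij (n := a - a'') ?_ h4⟩
    have e : a - a'' - (c - a'') = -(c - a) := by ring
    rw [e]
    exact (dvd_neg).2 h

/-- the scale of the second factor -/
def Sc : Scale where
  a j := PP N (2 * j + 1)
  b j := PP N (2 * j + 2)
  n j := N (2 * j + 1)
  apos j := PP_pos hN _
  hn j := hN _
  hb j := PP_succ _ _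
  hdvd j := by
    have : 2 * (j + 1) + 1 = (2 * j + 2) + 1 := by ring
    rw [this, PP_succ N (2 * j + 2)]
    exact Dvd.intro_left _ rfl
  h2 j := by
    have : 2 * (j + 1) + 1 = (2 * j + 2) + 1 := by ring
    rw [this, PP_succ N (2 * j + 2)]
    exact Nat.mul_le_mul_right _ (hN _)

/-- an enumeration of the integers -/
def enum (n : ℕ) : ℤ := Denumerable.ofNat ℤ n

theorem enum_encode (z : ℤ) : enum (Encodable.encode z) = z := Denumerable.ofNat_encode z

include hA in
theorem serve_ex (j : ℕ) (c : ℤ) : ∃ n, ∃ a ∈ A, (PP N (2 * j + 2) : ℤ) ∣ enum n - c - a := by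
  obtain ⟨a, ha⟩ := hA.ne
  refine ⟨Encodable.encode (c + a), a, ha, ?_⟩
  rw [enum_encode]
  simp

open Classical in
/-- index of the served integer -/
noncomputable def sidx (j : ℕ) (c : ℤ) : ℕ := Nat.find (serve_ex hA j c)

open Classical in
/-- the new target which serves it -/
noncomputable def serve (j : ℕ) (c : ℤ) : ℤ :=
  enum (sidx hA j c) - (Nat.find_spec (serve_ex hA j c)).choose

theorem serve_spec (j : ℕ) (c : ℤ) : ∃ a ∈ A, serve hA j c = enum (sidx hA j c) - a ∧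
    (PP N (2 * j + 2) : ℤ) ∣ serve hA j c - c := by
  classical
  have h := (Nat.find_spec (serve_ex hA j c)).choose_spec
  refine ⟨_, h.1, rfl, ?_⟩
  have e : serve hA j c - c = enum (sidx hA j c) - c
      - (Nat.find_spec (serve_ex hA j c)).choose := by unfold serve; ring
  rw [e]
  exact h.2

theorem sidx_le {j : ℕ} {c : ℤ} {n : ℕ} (h : ∃ a ∈ A, (PP N (2 * j + 2) : ℤ) ∣ enum n - c - a) :
    sidx hA j c ≤ n := by
  classical
  exact Nat.find_min' _ h

/-- settled targets -/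
def Settled (N : ℕ → ℕ) (j : ℕ) (y : ℤ) : Prop := 2 * |y| ≤ PP N (2 * j)

open Classical in
/-- the child function -/
noncomputable def RR (j : ℕ) (y : ℤ) (m : ℕ) : ℤ :=
  if m = 0 then y
  else if Settled N j y then serve hA j (y + m * PP N (2 * j + 1))
  else Int.bmod (y + m * PP N (2 * j + 1)) (PP N (2 * j + 2))

/-- the tree of the complementary spectrum -/
noncomputable def CC : Child (Sc hN) where
  R := RR hA
  R0 j y := by unfold RR; rw [if_pos rfl]
  Rm j y m := by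
    change (PP N (2 * j + 2) : ℤ) ∣ RR hA j y m - (y + m * (PP N (2 * j + 1) : ℕ))
    unfold RR
    split_ifs with h1 h2
    · subst h1; simp
    · obtain ⟨a, _, _, h3⟩ := serve_spec hA j (y + m * PP N (2 * j + 1))
      exact h3
    · have := Int.dvd_bmod_sub_self (x := y + m * PP N (2 * j + 1)) (m := PP N (2 * j + 2))
      exact this

section cover

variable (y0 : ℤ)

/-- presence of `z` at the node of `y` at level `j` -/
def Pres (N : ℕ → ℕ) (A : Set ℤ) (j : ℕ) (z y : ℤ) : Prop :=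
  ∃ a ∈ A, (PP N (2 * j) : ℤ) ∣ z - y - a

theorem Pres.down {j : ℕ} {z y y' : ℤ} (h : Pres N A (j + 1) z y')
    (hy : (PP N (2 * j + 1) : ℤ) ∣ y' - y) : Pres N A j z y := by
  obtain ⟨a, ha, h1⟩ := h
  refine ⟨a, ha, ?_⟩
  have h2 := (PP_dvd (N := N) (by omega : 2 * j ≤ 2 * (j + 1))).trans h1
  have h3 := (PP_dvd (N := N) (by omega : 2 * j ≤ 2 * j + 1)).trans hy
  have := dvd_add h2 h3
  have e : z - y' - a + (y' - y) = z - y - a := by ring
  rwa [e] at this

theorem Pres.mono {j l : ℕ} (hjl : j ≤ l) {z y : ℤ} (h : Pres N A l z y) : Pres N A j z y := by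
  obtain ⟨a, ha, h1⟩ := h
  exact ⟨a, ha, (PP_dvd (N := N) (by omega : 2 * j ≤ 2 * l)).trans h1⟩

include hN in
theorem RR_dvd (j : ℕ) (y : ℤ) (m : ℕ) : (PP N (2 * j + 1) : ℤ) ∣ RR hA j y m - y :=
  (CC hN hA).dvd_a j y m

include hN in
theorem pres_step {j : ℕ} {z y : ℤ} (h : Pres N A j z y) :
    ∃ m < N (2 * j + 1), Pres N A (j + 1) z (RR hA j y m) := by
  obtain ⟨a, ha, h1⟩ := h
  obtain ⟨a', ha', k, hk⟩ := F1 hA ha (c := z - y) h1
  have hNpos : 0 < (N (2 * j + 1) : ℤ) := by have := hN (2 * j + 1); omega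
  refine ⟨(k % N (2 * j + 1)).toNat, ?_, a', ha', ?_⟩
  · have := Int.emod_lt_of_pos k hNpos
    have := Int.emod_nonneg k hNpos.ne'
    omega
  · have hm : (((k % N (2 * j + 1)).toNat : ℕ) : ℤ) = k % N (2 * j + 1) :=
      Int.toNat_of_nonneg (Int.emod_nonneg k hNpos.ne')
    have h2 := (CC hN hA).Rm j y (k % N (2 * j + 1)).toNat
    change (PP N (2 * j + 2) : ℤ) ∣ RR hA j y _ - (y + _ * (PP N (2 * j + 1) : ℕ)) at h2
    rw [hm] at h2
    have h3 : (PP N (2 * j + 2) : ℤ) ∣ (k - k % N (2 * j + 1)) * PP N (2 * j + 1) := by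
      have : k - k % N (2 * j + 1) = N (2 * j + 1) * (k / N (2 * j + 1)) := by
        have := Int.emod_add_mul_ediv k (N (2 * j + 1))
        linarith
      rw [this, PP_succ N (2 * j + 1)]
      push_cast
      exact ⟨k / N (2 * j + 1), by ring⟩
    have h4 := dvd_sub h3 h2
    have e : (k - k % N (2 * j + 1)) * PP N (2 * j + 1)
        - (RR hA j y (k % N (2 * j + 1)).toNat
          - (y + k % N (2 * j + 1) * (PP N (2 * j + 1) : ℕ)))
        = z - RR hA j y (k % N (2 * j + 1)).toNat - a' := by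
      have : z - y - a' = PP N (2 * j + 1) * k := hk
      linear_combination -this
    rw [e] at h4
    exact h4

theorem pres_unique {j : ℕ} {z y y' : ℤ} (hy : y ∈ TT (CC hN hA) y0 j)
    (hy' : y' ∈ TT (CC hN hA) y0 j) (h : Pres N A j z y) (h' : Pres N A j z y') : y = y' := by
  by_contra hne
  obtain ⟨i, hi, h1, h2⟩ := TT_sep (CC hN hA) y0 j y hy y' hy' hne
  obtain ⟨a, ha, h3⟩ := h
  obtain ⟨a', ha', h4⟩ := h'
  have hty : Ty N (2 * i + 1) (y' - y) := by
    refine ⟨?_, fun h5 => h2 ?_⟩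
    · have := (dvd_neg).2 h1
      rwa [neg_sub] at this
    · have := (dvd_neg).2 h5
      rwa [neg_sub] at this
  have h5 : (PP N (2 * j) : ℤ) ∣ (y' - y) - (a - a') := by
    have := dvd_sub h3 h4
    have e : z - y - a - (z - y' - a') = (y' - y) - (a - a') := by ring
    rwa [e] at this
  have h6 := Ty_congr (by omega : 2 * i + 1 < 2 * j) h5 hty
  have hne' : a ≠ a' := by
    rintro rfl
    apply h6.2
    simp
  obtain ⟨i', h7⟩ := hA.ev a ha a' ha' hne'
  have := Ty_unique h6 h7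
  omega

include hN hA in
theorem pres_all {j : ℕ} {z y : ℤ} (h : ∀ l, j ≤ l → Pres N A l z y) : z - y ∈ A := by
  by_contra hc
  obtain ⟨a', ha', h1⟩ := hA.mx _ hc
  have hne : z - y - a' ≠ 0 := by
    intro h2
    apply hc
    have : z - y = a' := by linarith
    rw [this]; exact ha'
  obtain ⟨k, hk⟩ := Ty_exists hN hne
  obtain ⟨a, ha, h2⟩ := h (max j (k + 1)) (le_max_left _ _)
  have h3 : (PP N (2 * max j (k + 1)) : ℤ) ∣ (z - y - a') - (a - a') := by
    have e : (z - y - a') - (a - a') = z - y - a := by ring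
    rw [e]; exact h2
  have hlt : k < 2 * max j (k + 1) := by
    have := le_max_right j (k + 1)
    omega
  have h4 := Ty_congr hlt h3 hk
  have hne' : a ≠ a' := by
    rintro rfl
    apply h4.2
    simp
  obtain ⟨i', h7⟩ := hA.ev a ha a' ha' hne'
  have h5 := Ty_unique h4 h7
  exact h1 ⟨i', h5 ▸ hk⟩

theorem TT_R {j : ℕ} {y : ℤ} (hy : y ∈ TT (CC hN hA) y0 j) {m : ℕ} (hm : m < N (2 * j + 1)) :
    RR hA j y m ∈ TT (CC hN hA) y0 (j + 1) :=
  (mem_TT_succ (CC hN hA) y0).2 ⟨y, hy, m, hm, rfl⟩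

include hN in
/-- leaving a target -/
theorem leave {j : ℕ} {z y : ℤ} (h : Pres N A j z y) (hc : z - y ∉ A) :
    ∃ l, j ≤ l ∧ Pres N A l z y ∧ ¬ Pres N A (l + 1) z y ∧
      ∃ m < N (2 * l + 1), m ≠ 0 ∧ Pres N A (l + 1) z (RR hA l y m) := by
  classical
  have hex : ∃ d, ¬ Pres N A (j + d) z y := by
    by_contra hcon
    push Not at hcon
    refine hc (pres_all hN hA (j := j) fun l hl => ?_)
    obtain ⟨d, rfl⟩ := Nat.exists_eq_add_of_le hl
    exact hcon d
  have h0 : Nat.find hex ≠ 0 := by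
    intro h0
    have := Nat.find_spec hex
    rw [h0] at this
    exact this h
  obtain ⟨d, hd⟩ : ∃ d, Nat.find hex = d + 1 := ⟨Nat.find hex - 1, by omega⟩
  have h1 : Pres N A (j + d) z y := by
    have := Nat.find_min hex (m := d) (by omega)
    rwa [not_not] at this
  have h2 : ¬ Pres N A (j + d + 1) z y := by
    have := Nat.find_spec hex
    rwa [hd] at this
  obtain ⟨m, hm, h3⟩ := pres_step hN hA h1
  refine ⟨j + d, Nat.le_add_right _ _, h1, h2, m, hm, ?_, h3⟩
  rintro rfl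
  apply h2
  unfold RR at h3
  rwa [if_pos rfl] at h3

end cover

end Pool.Agent.Q83.Tree
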