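import Pool.Agent.Q83.Tree.Comp

/-! The complementary tree: coverage and goodness. -/

set_option autoImplicit false

open Finset

namespace Pool.Agent.Q83.Tree

variable {N : ℕ → ℕ} (hN : ∀ k, 2 ≤ N k) {A : Set ℤ} (hA : EvenMax N A) (y0 : ℤ)

include hN in
theorem PP_mono {i j : ℕ} (h : i ≤ j) : PP N i ≤ PP N j :=
  Nat.le_of_dvd (PP_pos hN j) (Int.natCast_dvd_natCast.1 (PP_dvd h))

include hN in
theorem Settled.mono {j l : ℕ} (h : j ≤ l) {y : ℤ} (hs : Settled N j y) : Settled N l y := by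
  unfold Settled at *
  have : (PP N (2 * j) : ℤ) ≤ PP N (2 * l) := by exact_mod_cast PP_mono hN (by omega)
  linarith

open Classical in
/-- earlier integers present at a node -/
noncomputable def WS (N : ℕ → ℕ) (A : Set ℤ) (z : ℤ) (j : ℕ) (y : ℤ) : Finset ℕ :=
  (range (Encodable.encode z)).filter (fun n => Pres N A j (enum n) y)

theorem mem_WS {z : ℤ} {j : ℕ} {y : ℤ} {n : ℕ} :
    n ∈ WS N A z j y ↔ n < Encodable.encode z ∧ Pres N A j (enum n) y := by
  simp only [WS, mem_filter, mem_range]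

include hN in
theorem WS_child {z : ℤ} {j l : ℕ} (hjl : j ≤ l) (y : ℤ) (m : ℕ) :
    WS N A z (l + 1) (RR hA l y m) ⊆ WS N A z j y := by
  intro n hn
  rw [mem_WS] at hn ⊢
  exact ⟨hn.1, (hn.2.down (RR_dvd hN hA l y m)).mono hjl⟩

include hN in
theorem RR_zmod (j : ℕ) (y : ℤ) (m : ℕ) :
    (PP N (2 * j + 2) : ℤ) ∣ RR hA j y m - (y + m * PP N (2 * j + 1)) := (CC hN hA).Rm j y m

include hN in
theorem settled_bmod (l : ℕ) (x : ℤ) : Settled N (l + 1) (Int.bmod x (PP N (2 * l + 2))) := by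
  unfold Settled
  have hpos := PP_pos hN (2 * l + 2)
  have h1 := Int.le_bmod (x := x) (m := PP N (2 * l + 2)) hpos
  have h2 := Int.bmod_le (x := x) (m := PP N (2 * l + 2)) hpos
  have e : 2 * (l + 1) = 2 * l + 2 := by ring
  rw [e]
  have : |Int.bmod x (PP N (2 * l + 2))| ≤ (PP N (2 * l + 2) : ℤ) / 2 := by
    rw [abs_le]
    omega
  omega

theorem settled_case {z : ℤ} {k : ℕ}
    (IH : ∀ k' < k, ∀ j y, y ∈ TT (CC hN hA) y0 j → Pres N A j z y → (WS N A z j y).card ≤ k' →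
      ∃ l, ∃ y' ∈ TT (CC hN hA) y0 l, z - y' ∈ A)
    {j : ℕ} {y : ℤ} (hy : y ∈ TT (CC hN hA) y0 j) (hp : Pres N A j z y)
    (hk : (WS N A z j y).card ≤ k) (hs : Settled N j y) :
    ∃ l, ∃ y' ∈ TT (CC hN hA) y0 l, z - y' ∈ A := by
  by_cases hz : z - y ∈ A
  · exact ⟨j, y, hy, hz⟩
  obtain ⟨l, hjl, h1, h2, m, hm, hm0, h3⟩ := leave hN hA hp hz
  have hy' : y ∈ TT (CC hN hA) y0 l := TT_mono' _ _ hjl hy
  have hR : RR hA l y m = serve hA l (y + m * PP N (2 * l + 1)) := by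
    unfold RR
    rw [if_neg hm0, if_pos (hs.mono hN hjl)]
  set c : ℤ := y + m * PP N (2 * l + 1) with hc
  obtain ⟨a, ha, h4, h5⟩ := serve_spec hA l c
  have hT : RR hA l y m ∈ TT (CC hN hA) y0 (l + 1) := TT_R hN hA y0 hy' hm
  -- the served index is at most that of `z`
  have hle : sidx hA l c ≤ Encodable.encode z := by
    apply sidx_le
    obtain ⟨a', ha', h6⟩ := h3
    refine ⟨a', ha', ?_⟩
    rw [enum_encode]
    rw [hR] at h6
    have := dvd_add h6 h5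
    have e : z - serve hA l c - a' + (serve hA l c - c) = z - c - a' := by ring
    rwa [e] at this
  rcases hle.eq_or_lt with heq | hlt
  · refine ⟨l + 1, RR hA l y m, hT, ?_⟩
    rw [hR, h4, heq, enum_encode]
    have e : z - (z - a) = a := by ring
    rwa [e]
  · by_cases hz' : z - RR hA l y m ∈ A
    · exact ⟨l + 1, _, hT, hz'⟩
    obtain ⟨l', hl', g1, g2, m', hm', hm0', g3⟩ := leave hN hA h3 hz'
    have hT' : RR hA l y m ∈ TT (CC hN hA) y0 l' := TT_mono' _ _ hl' hT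
    have hT1 : RR hA l y m ∈ TT (CC hN hA) y0 (l' + 1) := TT_mono' _ _ (by omega) hT
    have hT'' : RR hA l' (RR hA l y m) m' ∈ TT (CC hN hA) y0 (l' + 1) := TT_R hN hA y0 hT' hm'
    have hn1 : ∀ L, Pres N A L (enum (sidx hA l c)) (RR hA l y m) := by
      intro L
      refine ⟨a, ha, ?_⟩
      rw [hR, h4]
      simp
    refine IH ((WS N A z (l' + 1) (RR hA l' (RR hA l y m) m')).card) ?_ _ _ hT'' g3 le_rfl
    refine lt_of_lt_of_le (card_lt_card ?_) hk
    have hsub : WS N A z (l' + 1) (RR hA l' (RR hA l y m) m') ⊆ WS N A z j y :=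
      ((WS_child hN hA hl' _ _).trans (WS_child hN hA hjl _ _))
    refine (ssubset_iff_of_subset hsub).2 ⟨sidx hA l c, ?_, ?_⟩
    · apply WS_child hN hA hjl y m
      rw [mem_WS]
      exact ⟨hlt, hn1 _⟩
    · rw [mem_WS]
      rintro ⟨-, h7⟩
      have h8 := pres_unique hN hA y0 hT1 hT'' (hn1 (l' + 1)) h7
      apply g2
      rw [← h8] at g3
      exact g3

theorem cover_aux (z : ℤ) (k : ℕ) : ∀ j y, y ∈ TT (CC hN hA) y0 j → Pres N A j z y →
    (WS N A z j y).card ≤ k → ∃ l, ∃ y' ∈ TT (CC hN hA) y0 l, z - y' ∈ A := by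
  induction k using Nat.strong_induction_on with
  | _ k IH =>
  intro j y hy hp hk
  by_cases hz : z - y ∈ A
  · exact ⟨j, y, hy, hz⟩
  obtain ⟨l, hjl, h1, h2, m, hm, hm0, h3⟩ := leave hN hA hp hz
  have hy' : y ∈ TT (CC hN hA) y0 l := TT_mono' _ _ hjl hy
  have hT : RR hA l y m ∈ TT (CC hN hA) y0 (l + 1) := TT_R hN hA y0 hy' hm
  by_cases hs : Settled N l y
  · have hsub : WS N A z l y ⊆ WS N A z j y := by
      intro n hn
      rw [mem_WS] at hn ⊢
      exact ⟨hn.1, hn.2.mono hjl⟩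
    exact settled_case hN hA y0 IH hy' h1 ((card_le_card hsub).trans hk) hs
  · have hR : RR hA l y m = Int.bmod (y + m * PP N (2 * l + 1)) (PP N (2 * l + 2)) := by
      unfold RR
      rw [if_neg hm0, if_neg hs]
    refine settled_case hN hA y0 IH hT h3 ((card_le_card (WS_child hN hA hjl _ _)).trans hk) ?_
    rw [hR]
    exact settled_bmod hN l _

theorem cover (z : ℤ) : ∃ a ∈ A, ∃ y ∈ YY (CC hN hA) y0, a + y = z := by
  have h0 : y0 ∈ TT (CC hN hA) y0 0 := by simp [TT]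
  have hp : Pres N A 0 z y0 := by
    obtain ⟨a, ha⟩ := hA.ne
    exact ⟨a, ha, by simp [PP]⟩
  obtain ⟨l, y', hy', h⟩ := cover_aux hN hA y0 z _ 0 y0 h0 hp le_rfl
  exact ⟨z - y', h, y', ⟨l, hy'⟩, by ring⟩

theorem good_settled {ξ : ℝ} {j : ℕ} {y : ℤ} (hs : Settled N j y)
    (hξ : 100 * |ξ| ≤ (PP N (2 * j + 1) : ℝ)) : (sys (CC hN hA) y0 ξ).Good (1 / 20) j y := by
  refine Sys.Good.base j y (V_settled (CC hN hA) y0 ?_ hξ)
  change 4 * |(y : ℝ)| ≤ (PP N (2 * j + 1) : ℝ)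
  have h1 : 2 * |(y : ℝ)| ≤ (PP N (2 * j) : ℝ) := by
    have : 2 * |y| ≤ (PP N (2 * j) : ℤ) := hs
    exact_mod_cast this
  have h2 : (PP N (2 * j + 1) : ℝ) = N (2 * j) * PP N (2 * j) := by
    rw [PP_succ]; push_cast; ring
  have h3 : (2 : ℝ) ≤ N (2 * j) := by exact_mod_cast hN (2 * j)
  rw [h2]
  have h4 : (0 : ℝ) ≤ PP N (2 * j) := by positivity
  nlinarith

theorem good_aux {ξ : ℝ} {j0 : ℕ} (hξ : 100 * |ξ| ≤ (PP N (2 * j0 + 1) : ℝ)) (d : ℕ) :
    ∀ j, j0 ≤ j → ∀ y ∈ TT (CC hN hA) y0 j, Settled N (j + d) y →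
      (sys (CC hN hA) y0 ξ).Good (1 / 20) j y := by
  have hξ' : ∀ j, j0 ≤ j → 100 * |ξ| ≤ (PP N (2 * j + 1) : ℝ) := by
    intro j hj
    have : (PP N (2 * j0 + 1) : ℝ) ≤ PP N (2 * j + 1) := by
      exact_mod_cast PP_mono hN (by omega)
    linarith
  induction d with
  | zero =>
    intro j hj y hy hs
    exact good_settled hN hA y0 hs (hξ' j hj)
  | succ d ih =>
    intro j hj y hy hs
    by_cases hs0 : Settled N j y
    · exact good_settled hN hA y0 hs0 (hξ' j hj)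
    refine Sys.Good.step j y fun y' hy' => ?_
    have hch : (sys (CC hN hA) y0 ξ).ch j y = (range (N (2 * j + 1))).image (RR hA j y) :=
      filter_parent (CC hN hA) y0 hy
    rw [hch, mem_image] at hy'
    obtain ⟨m, hm, rfl⟩ := hy'
    have hT := TT_R hN hA y0 hy (mem_range.1 hm)
    by_cases hm0 : m = 0
    · have e : RR hA j y m = y := by unfold RR; rw [if_pos hm0]
      rw [e] at hT ⊢
      refine ih (j + 1) (by omega) y hT ?_
      have e2 : j + 1 + d = j + (d + 1) := by ring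
      rw [e2]
      exact hs
    · have hR : RR hA j y m = Int.bmod (y + m * PP N (2 * j + 1)) (PP N (2 * j + 2)) := by
        unfold RR
        rw [if_neg hm0, if_neg hs0]
      refine good_settled hN hA y0 ?_ (hξ' (j + 1) (by omega))
      rw [hR]
      exact settled_bmod hN j _

theorem good (ξ : ℝ) : ∃ δ : ℝ, 0 < δ ∧ ∃ j0, ∀ j, j0 ≤ j → ∀ y ∈ TT (CC hN hA) y0 j,
    (sys (CC hN hA) y0 ξ).Good δ j y := by
  obtain ⟨M, hM⟩ := exists_nat_ge (100 * |ξ|)
  refine ⟨1 / 20, by norm_num, M, fun j hj y hy => ?_⟩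
  refine good_aux hN hA y0 (j0 := M) ?_ (2 * y.natAbs) j hj y hy ?_
  · refine hM.trans ?_
    have h1 := PP_ge hN (2 * M + 1)
    have h2 : M < 2 ^ M := Nat.lt_two_pow_self
    have h3 : 2 ^ M ≤ 2 ^ (2 * M + 1) := Nat.pow_le_pow_right (by norm_num) (by omega)
    exact_mod_cast (h2.le.trans h3).trans h1
  · unfold Settled
    have h1 := PP_ge hN (2 * (j + 2 * y.natAbs))
    have h2 : 2 * y.natAbs < 2 ^ (2 * y.natAbs) := Nat.lt_two_pow_self
    have h3 : 2 ^ (2 * y.natAbs) ≤ 2 ^ (2 * (j + 2 * y.natAbs)) :=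
      Nat.pow_le_pow_right (by norm_num) (by omega)
    have h4 : 2 * y.natAbs ≤ PP N (2 * (j + 2 * y.natAbs)) := (h2.le.trans h3).trans h1
    have h5 : |y| = (y.natAbs : ℤ) := Int.abs_eq_natAbs y
    rw [h5]
    exact_mod_cast h4

end Pool.Agent.Q83.Tree
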