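import Mathlib

/-! The Dirichlet-type kernel `D n θ = (1/n) ∑_{j<n} e^{2πijθ}`. -/

set_option autoImplicit false

open Finset

namespace Pool.Agent.Q83.Tree

/-- normalised Dirichlet kernel -/
noncomputable def D (n : ℕ) (θ : ℝ) : ℂ :=
  (n : ℂ)⁻¹ * ∑ j ∈ range n, Complex.exp (2 * Real.pi * Complex.I * j * θ)

theorem norm_exp_aux (j : ℕ) (θ : ℝ) : ‖Complex.exp (2 * Real.pi * Complex.I * j * θ)‖ = 1 := by
  have : (2 * Real.pi * Complex.I * j * θ : ℂ) = ((2 * Real.pi * j * θ : ℝ) : ℂ) * Complex.I := by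
    push_cast; ring
  rw [this, Complex.norm_exp_ofReal_mul_I]

theorem norm_D_le {n : ℕ} (hn : 0 < n) (θ : ℝ) : ‖D n θ‖ ≤ 1 := by
  unfold D
  rw [norm_mul, norm_inv, Complex.norm_natCast]
  have h1 : ‖∑ j ∈ range n, Complex.exp (2 * Real.pi * Complex.I * j * θ)‖ ≤ n := by
    refine (norm_sum_le _ _).trans ?_
    simp_rw [norm_exp_aux]
    simp
  have hn' : (0 : ℝ) < n := by exact_mod_cast hn
  rw [inv_mul_le_iff₀ hn']
  linarith

theorem exp_int_aux (j : ℕ) (k : ℤ) (θ : ℝ) :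
    Complex.exp (2 * Real.pi * Complex.I * j * ((θ + k : ℝ) : ℂ))
      = Complex.exp (2 * Real.pi * Complex.I * j * θ) := by
  have : (2 * Real.pi * Complex.I * j * ((θ + k : ℝ) : ℂ) : ℂ)
      = 2 * Real.pi * Complex.I * j * θ + ((j * k : ℤ) : ℂ) * (2 * Real.pi * Complex.I) := by
    push_cast; ring
  rw [this, Complex.exp_add, Complex.exp_int_mul_two_pi_mul_I, mul_one]

theorem D_add_int (n : ℕ) (θ : ℝ) (k : ℤ) : D n (θ + k) = D n θ := by
  unfold D
  simp_rw [exp_int_aux]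

theorem geom_aux (n : ℕ) (θ : ℝ) :
    (Complex.exp (2 * Real.pi * Complex.I * θ) - 1)
      * ∑ j ∈ range n, Complex.exp (2 * Real.pi * Complex.I * j * θ)
      = Complex.exp (2 * Real.pi * Complex.I * n * θ) - 1 := by
  have h : ∀ j : ℕ, Complex.exp (2 * Real.pi * Complex.I * j * θ)
      = Complex.exp (2 * Real.pi * Complex.I * θ) ^ j := by
    intro j
    rw [← Complex.exp_nat_mul]
    congr 1
    ring
  simp_rw [h]
  rw [mul_comm, geom_sum_mul]

theorem exp_eq_one (θ : ℝ) : Complex.exp (2 * Real.pi * Complex.I * θ) = 1 ↔ ∃ k : ℤ, θ = k := by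
  rw [Complex.exp_eq_one_iff]
  constructor
  · rintro ⟨k, hk⟩
    refine ⟨k, ?_⟩
    have h1 : (2 * Real.pi * Complex.I : ℂ) * θ = (2 * Real.pi * Complex.I) * k := by
      rw [hk]; ring
    have h2 := mul_left_cancel₀ Complex.two_pi_I_ne_zero h1
    exact_mod_cast h2
  · rintro ⟨k, hk⟩
    refine ⟨k, ?_⟩
    rw [hk]
    push_cast
    ring

theorem D_eq_zero {n : ℕ} (hn : 0 < n) {θ : ℝ} : D n θ = 0 ↔
    (∃ k : ℤ, n * θ = k) ∧ ¬ ∃ k : ℤ, θ = k := by
  have hn0 : (n : ℂ) ≠ 0 := by exact_mod_cast hn.ne'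
  have h1 := geom_aux n θ
  have e : Complex.exp (2 * Real.pi * Complex.I * n * θ)
      = Complex.exp (2 * Real.pi * Complex.I * ((n * θ : ℝ) : ℂ)) := by
    congr 1; push_cast; ring
  rw [e] at h1
  have h2 : D n θ = 0 ↔ ∑ j ∈ range n, Complex.exp (2 * Real.pi * Complex.I * j * θ) = 0 := by
    unfold D
    rw [mul_eq_zero]
    exact ⟨fun h => h.resolve_left (inv_ne_zero hn0), Or.inr⟩
  rw [h2]
  constructor
  · intro h
    rw [h, mul_zero] at h1
    refine ⟨(exp_eq_one _).1 (sub_eq_zero.1 h1.symm), ?_⟩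
    rintro ⟨k, hk⟩
    have h3 : ∀ j : ℕ, Complex.exp (2 * Real.pi * Complex.I * j * θ) = 1 := by
      intro j
      have := exp_int_aux j k 0
      rw [hk]
      rw [zero_add] at this
      rw [this]
      simp
    simp_rw [h3] at h
    simp only [sum_const, card_range, nsmul_eq_mul, mul_one] at h
    exact hn0 h
  · rintro ⟨h3, h4⟩
    rw [(exp_eq_one _).2 h3, sub_self] at h1
    rcases mul_eq_zero.1 h1 with h5 | h5
    · exact absurd ((exp_eq_one _).1 (sub_eq_zero.1 h5)) h4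
    · exact h5

theorem sum_D {n : ℕ} (hn : 0 < n) (θ : ℝ) :
    ∑ m ∈ range n, ‖D n (θ - m / n)‖ ^ 2 = 1 := by
  have hn0 : (n : ℂ) ≠ 0 := by exact_mod_cast hn.ne'
  have hnr : (n : ℝ) ≠ 0 := by exact_mod_cast hn.ne'
  have h1 : ∀ m : ℕ, ((‖D n (θ - m / n)‖ ^ 2 : ℝ) : ℂ) = (n : ℂ)⁻¹ * (n : ℂ)⁻¹ *
      ∑ j ∈ range n, ∑ l ∈ range n, Complex.exp (2 * Real.pi * Complex.I * (j - l) * θ)
        * Complex.exp (2 * Real.pi * Complex.I * m * ((((l : ℤ) - j : ℤ) : ℝ) / n : ℝ)) := by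
    intro m
    rw [Complex.ofReal_pow, ← Complex.mul_conj']
    unfold D
    rw [map_mul, map_sum, map_inv₀, Complex.conj_natCast]
    have e : ∀ j l : ℕ, Complex.exp (2 * Real.pi * Complex.I * j * ((θ - m / n : ℝ) : ℂ))
        * (starRingEnd ℂ) (Complex.exp (2 * Real.pi * Complex.I * l * ((θ - m / n : ℝ) : ℂ)))
        = Complex.exp (2 * Real.pi * Complex.I * (j - l) * θ)
        * Complex.exp (2 * Real.pi * Complex.I * m * ((((l : ℤ) - j : ℤ) : ℝ) / n : ℝ)) := by
      intro j l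
      rw [← Complex.exp_conj, ← Complex.exp_add, ← Complex.exp_add]
      congr 1
      simp only [map_mul, Complex.conj_I, Complex.conj_natCast, Complex.conj_ofReal, map_ofNat]
      push_cast
      field_simp
      ring
    rw [mul_mul_mul_comm, sum_mul_sum]
    congr 1
    exact sum_congr rfl fun j _ => sum_congr rfl fun l _ => e j l
  have h2 : ((∑ m ∈ range n, ‖D n (θ - m / n)‖ ^ 2 : ℝ) : ℂ) = 1 := by
    rw [Complex.ofReal_sum]
    simp_rw [h1]
    rw [← mul_sum, sum_comm]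
    have h3 : ∀ j ∈ range n, ∑ m ∈ range n, ∑ l ∈ range n,
        Complex.exp (2 * Real.pi * Complex.I * (j - l) * θ)
        * Complex.exp (2 * Real.pi * Complex.I * m * ((((l : ℤ) - j : ℤ) : ℝ) / n : ℝ)) = n := by
      intro j hj
      rw [sum_comm]
      have h4 : ∀ l ∈ range n, ∑ m ∈ range n,
          Complex.exp (2 * Real.pi * Complex.I * (j - l) * θ)
          * Complex.exp (2 * Real.pi * Complex.I * m * ((((l : ℤ) - j : ℤ) : ℝ) / n : ℝ))
          = if l = j then (n : ℂ) else 0 := by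
        intro l hl
        rw [← mul_sum]
        split_ifs with hlj
        · subst hlj
          simp
        · have h5 : ∑ m ∈ range n,
              Complex.exp (2 * Real.pi * Complex.I * m * ((((l : ℤ) - j : ℤ) : ℝ) / n : ℝ)) = 0 := by
            have h6 : D n ((((l : ℤ) - j : ℤ) : ℝ) / n) = 0 := by
              rw [D_eq_zero hn]
              refine ⟨⟨(l : ℤ) - j, by field_simp⟩, ?_⟩
              rintro ⟨k, hk⟩
              rw [div_eq_iff hnr] at hk
              have hk' : (l : ℤ) - j = k * n := by exact_mod_cast hk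
              have hl' := mem_range.1 hl
              have hj' := mem_range.1 hj
              have hk0 : k = 0 := by
                by_contra hk0
                have : (n : ℤ) ≤ |(l : ℤ) - j| := by
                  rw [hk', abs_mul, Nat.abs_cast]
                  have : 1 ≤ |k| := Int.one_le_abs hk0
                  nlinarith
                have h7 : |(l : ℤ) - j| < n := by rw [abs_lt]; omega
                omega
              rw [hk0, zero_mul] at hk'
              omega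
            unfold D at h6
            exact (mul_eq_zero.1 h6).resolve_left (inv_ne_zero hn0)
          rw [h5, mul_zero]
      rw [sum_congr rfl h4, sum_ite_eq' (range n) j]
      rw [if_pos hj]
    rw [sum_congr rfl h3, sum_const, card_range, nsmul_eq_mul]
    field_simp
  exact_mod_cast h2

theorem sum_sq_le (n : ℕ) : ∑ j ∈ range n, (j : ℝ) ^ 2 ≤ (n : ℝ) ^ 3 / 3 := by
  induction n with
  | zero => simp
  | succ n ih =>
    rw [sum_range_succ]
    have : (0 : ℝ) ≤ n := Nat.cast_nonneg n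
    push_cast
    nlinarith

theorem re_D {n : ℕ} (hn : 0 < n) (θ : ℝ) :
    1 - 2 * Real.pi ^ 2 / 3 * (n * θ) ^ 2 ≤ (D n θ).re := by
  have hnr : (0 : ℝ) < n := by exact_mod_cast hn
  have h1 : (D n θ).re = (n : ℝ)⁻¹ * ∑ j ∈ range n, Real.cos (2 * Real.pi * j * θ) := by
    unfold D
    have : ((n : ℂ)⁻¹) = (((n : ℝ)⁻¹ : ℝ) : ℂ) := by push_cast; rfl
    rw [this, Complex.re_ofReal_mul, Complex.re_sum]
    congr 1
    refine sum_congr rfl fun j _ => ?_
    have e : (2 * Real.pi * Complex.I * j * θ : ℂ) = ((2 * Real.pi * j * θ : ℝ) : ℂ) * Complex.I := by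
      push_cast; ring
    rw [e, Complex.exp_ofReal_mul_I_re]
  rw [h1, ← div_eq_inv_mul, le_div_iff₀ hnr]
  have h2 : ∑ j ∈ range n, (1 - 2 * Real.pi ^ 2 * θ ^ 2 * (j : ℝ) ^ 2)
      ≤ ∑ j ∈ range n, Real.cos (2 * Real.pi * j * θ) := by
    refine sum_le_sum fun j _ => ?_
    have := Real.one_sub_sq_div_two_le_cos (x := 2 * Real.pi * j * θ)
    nlinarith
  refine le_trans ?_ h2
  rw [sum_sub_distrib, ← mul_sum]
  simp only [sum_const, card_range, nsmul_eq_mul, mul_one]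
  have h3 := mul_le_mul_of_nonneg_left (sum_sq_le n)
    (by positivity : 0 ≤ 2 * Real.pi ^ 2 * θ ^ 2)
  nlinarith

theorem norm_D_ge {n : ℕ} (hn : 0 < n) {θ x : ℝ} (hx : (n * θ) ^ 2 ≤ x)
    (hx1 : 2 * Real.pi ^ 2 / 3 * x ≤ 1) :
    1 - 4 * Real.pi ^ 2 / 3 * x ≤ ‖D n θ‖ ^ 2 := by
  have h1 := re_D hn θ
  have h2 := Complex.re_le_norm (D n θ)
  have h3 : 2 * Real.pi ^ 2 / 3 * (n * θ) ^ 2 ≤ 2 * Real.pi ^ 2 / 3 * x :=
    mul_le_mul_of_nonneg_left hx (by positivity)
  have h4 : 1 - 2 * Real.pi ^ 2 / 3 * x ≤ ‖D n θ‖ := by linarith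
  have h5 : 0 ≤ 1 - 2 * Real.pi ^ 2 / 3 * x := by linarith
  have h6 := pow_le_pow_left₀ h5 h4 2
  nlinarith [sq_nonneg (2 * Real.pi ^ 2 / 3 * x)]

end Pool.Agent.Q83.Tree
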