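import Pool.Agent.Q83.Tree.Cover

/-! From a spectrum of the first factor to the complementary spectrum. -/

set_option autoImplicit false

open MeasureTheory Filter Topology Q83.Frac

namespace Pool.Agent.Q83.Tree

/-- the simplest child function -/
def triv (S : Scale) : Child S where
  R j y m := y + m * S.a j
  R0 j y := by simp
  Rm j y m := by simp

theorem V_eq {S : Scale} (c : Child S) {ρ : Measure ℝ}
    (hFT : ∀ ξ : ℝ, Tendsto (fun k => ∏ j ∈ Finset.range k, D (S.n j) (ξ / S.b j)) atTop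
      (𝓝 (FT ρ ξ))) (ξ : ℝ) (y : ℤ) : (sys c 0 ξ).V 0 y = ‖FT ρ (ξ - y)‖ ^ 2 := by
  refine tendsto_nhds_unique ((sys c 0 ξ).V_tendsto 0 y) ?_
  have h2 := ((hFT (ξ - y)).norm).pow 2
  refine h2.congr fun k => ?_
  rw [norm_prod, ← Finset.prod_pow]
  unfold Sys.WW
  refine Finset.prod_congr rfl fun i _ => ?_
  rw [zero_add]
  rfl

theorem factor_zero {S : Scale} {ρ : Measure ℝ}
    (hFT : ∀ ξ : ℝ, Tendsto (fun k => ∏ j ∈ Finset.range k, D (S.n j) (ξ / S.b j)) atTop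
      (𝓝 (FT ρ ξ))) {t : ℝ} (ht : FT ρ t = 0) : ∃ i, D (S.n i) (t / S.b i) = 0 := by
  by_contra hcon
  push Not at hcon
  obtain ⟨M, hM⟩ := exists_nat_ge (100 * |t|)
  have h1 := V_eq (triv S) hFT t 0
  rw [Int.cast_zero, sub_zero, ht, norm_zero] at h1
  have h2 := (sys (triv S) 0 t).V_mul 0 M 0
  rw [zero_add] at h2
  have ha : 100 * |t| ≤ S.a M := by
    have h3 := S.a_growth 0 M
    rw [zero_add] at h3
    have h4 : M < 4 ^ M := Nat.lt_pow_self (by norm_num)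
    have h5 : M ≤ S.a M := by
      have := S.apos 0
      nlinarith
    exact hM.trans (by exact_mod_cast h5)
  have h3 : 1 / 20 ≤ (sys (triv S) 0 t).V M 0 := by
    refine V_settled (triv S) 0 ?_ ha
    simp
  have h4 : 0 < (sys (triv S) 0 t).WW 0 M 0 := by
    unfold Sys.WW
    refine Finset.prod_pos fun i _ => ?_
    change 0 < ‖D (S.n (0 + i)) ((t - (0 : ℤ)) / S.b (0 + i))‖ ^ 2
    rw [zero_add, Int.cast_zero, sub_zero]
    have := norm_pos_iff.2 (hcon i)
    positivity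
  rw [h1] at h2
  have : 0 < (sys (triv S) 0 t).WW 0 M 0 * (sys (triv S) 0 t).V M 0 := by
    apply mul_pos h4
    linarith
  rw [← h2] at this
  norm_num at this

variable {N : ℕ → ℕ} (hN : ∀ k, 2 ≤ N k)

/-- the scale of the first factor -/
def Se : Scale where
  a j := PP N (2 * j)
  b j := PP N (2 * j + 1)
  n j := N (2 * j)
  apos j := PP_pos hN _
  hn j := hN _
  hb j := PP_succ _ _
  hdvd j := by
    have : 2 * (j + 1) = (2 * j + 1) + 1 := by ring
    rw [this, PP_succ N (2 * j + 1)]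
    exact Dvd.intro_left _ rfl
  h2 j := by
    have : 2 * (j + 1) = (2 * j + 1) + 1 := by ring
    rw [this, PP_succ N (2 * j + 1)]
    exact Nat.mul_le_mul_right _ (hN _)

include hN in
theorem zero_iff {ρ : Measure ℝ}
    (hFT : ∀ ξ : ℝ, Tendsto (fun k => ∏ j ∈ Finset.range k, D (N (2 * j)) (ξ / PP N (2 * j + 1)))
      atTop (𝓝 (FT ρ ξ))) {t : ℝ} : FT ρ t = 0 ↔ ∃ n : ℤ, t = n ∧ ∃ i, Ty N (2 * i) n := by
  constructor
  · intro ht
    obtain ⟨i, hi⟩ := factor_zero (S := Se hN) hFT ht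
    change D (N (2 * i)) (t / PP N (2 * i + 1)) = 0 at hi
    have hn : 0 < N (2 * i) := by have := hN (2 * i); omega
    rw [D_eq_zero hn] at hi
    obtain ⟨⟨k, hk⟩, h2⟩ := hi
    have hP : (PP N (2 * i) : ℝ) ≠ 0 := by exact_mod_cast (PP_pos hN _).ne'
    have hP1 : (PP N (2 * i + 1) : ℝ) ≠ 0 := by exact_mod_cast (PP_pos hN _).ne'
    have hn' : (N (2 * i) : ℝ) ≠ 0 := by exact_mod_cast hn.ne'
    have h3 : (PP N (2 * i + 1) : ℝ) = N (2 * i) * PP N (2 * i) := by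
      rw [PP_succ]; push_cast; ring
    have h4 : t = ((k * PP N (2 * i) : ℤ) : ℝ) := by
      rw [h3] at hk
      field_simp at hk
      push_cast
      linarith
    refine ⟨k * PP N (2 * i), h4, i, Dvd.intro_left _ rfl, ?_⟩
    rintro ⟨l, hl⟩
    apply h2
    refine ⟨l, ?_⟩
    rw [h4, hl]
    push_cast
    field_simp
  · rintro ⟨n, rfl, i, hi⟩
    refine tendsto_nhds_unique (hFT n) (tendsto_const_nhds.congr' ?_)
    filter_upwards [eventually_gt_atTop i] with k hk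
    refine (Finset.prod_eq_zero (Finset.mem_range.2 hk) ?_).symm
    have := prod_zero_of (S := Se hN) (i := i) (y := n) (y' := 0) (by rw [sub_zero]; exact hi.1)
      (by rw [sub_zero]; exact hi.2)
    rw [Int.cast_zero, sub_zero] at this
    exact this

theorem not_dense_of_orth {μ : Measure ℝ} [IsProbabilityMeasure μ] {Λ : Set ℝ}
    (h : (Submodule.span ℂ (Set.range fun t : Λ => el μ (t : ℝ))).topologicalClosure = ⊤) (s : ℝ)
    (hs : ∀ t ∈ Λ, FT μ (s - t) = 0) : False := by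
  rw [Submodule.topologicalClosure_eq_top_iff, Submodule.eq_bot_iff] at h
  have h1 := h (el μ s) ?_
  · have h2 := norm_el μ s
    rw [h1, norm_zero] at h2
    exact zero_ne_one h2
  · rw [Submodule.mem_orthogonal]
    intro u hu
    induction hu using Submodule.span_induction with
    | mem x hx =>
      obtain ⟨t, rfl⟩ := hx
      change inner ℂ (el μ (t : ℝ)) (el μ s) = 0
      rw [inner_el]
      exact hs t t.2
    | zero => exact inner_zero_left _
    | add x y _ _ hx hy => rw [inner_add_left, hx, hy, add_zero]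
    | smul a x _ hx => rw [inner_smul_left, hx, mul_zero]

include hN in
theorem spectrum_evenMax {μ : Measure ℝ} [IsProbabilityMeasure μ]
    (hFT : ∀ ξ : ℝ, Tendsto (fun k => ∏ j ∈ Finset.range k, D (N (2 * j)) (ξ / PP N (2 * j + 1)))
      atTop (𝓝 (FT μ ξ))) {Λ : Set ℝ} (hΛ : IsSpectrum μ Λ) :
    ∃ l0 : ℝ, ∃ A : Set ℤ, EvenMax N A ∧ Λ = (fun n : ℤ => l0 + n) '' A := by
  obtain ⟨-, hO, hd⟩ := hΛ
  have hne : Λ.Nonempty := by
    by_contra hcon
    rw [Set.not_nonempty_iff_eq_empty] at hcon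
    exact not_dense_of_orth hd 0 (by rw [hcon]; simp)
  obtain ⟨l0, hl0⟩ := hne
  have horth : ∀ s ∈ Λ, ∀ t ∈ Λ, s ≠ t → FT μ (s - t) = 0 := by
    intro s hs t ht hst
    have := hO.2 (i := (⟨t, ht⟩ : Λ)) (j := ⟨s, hs⟩) (by simpa using hst.symm)
    change inner ℂ (el μ t) (el μ s) = 0 at this
    rwa [inner_el] at this
  have hint : ∀ s ∈ Λ, ∃ n : ℤ, s = l0 + n := by
    intro s hs
    by_cases h : s = l0
    · exact ⟨0, by simp [h]⟩
    · obtain ⟨n, hn, -⟩ := (zero_iff hN hFT).1 (horth s hs l0 hl0 h)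
      exact ⟨n, by linarith⟩
  refine ⟨l0, {n : ℤ | l0 + n ∈ Λ}, ⟨⟨0, by simpa using hl0⟩, ?_, ?_⟩, ?_⟩
  · intro a ha a' ha' hne
    have h1 := horth (l0 + a) ha (l0 + a') ha' (by simpa using hne)
    obtain ⟨n, hn, i, hi⟩ := (zero_iff hN hFT).1 h1
    have e : n = a - a' := by
      have : (n : ℝ) = ((a - a' : ℤ) : ℝ) := by push_cast; linarith
      exact_mod_cast this
    exact ⟨i, e ▸ hi⟩
  · intro c hc
    by_contra hcon
    push Not at hcon
    refine not_dense_of_orth hd (l0 + c) fun t ht => ?_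
    obtain ⟨n, rfl⟩ := hint t ht
    obtain ⟨i, hi⟩ := hcon n ht
    exact (zero_iff hN hFT).2 ⟨c - n, by push_cast; ring, i, hi⟩
  · ext s
    constructor
    · intro hs
      obtain ⟨n, rfl⟩ := hint s hs
      exact ⟨n, hs, rfl⟩
    · rintro ⟨n, hn, rfl⟩
      exact hn

/-- `A ⊕ B = ℤ` -/
def DirectSumInt (A B : Set ℝ) : Prop :=
  (∀ a ∈ A, ∀ b ∈ B, ∃ z : ℤ, a + b = z) ∧
    ∀ z : ℤ, ∃! p : ℝ × ℝ, p.1 ∈ A ∧ p.2 ∈ B ∧ p.1 + p.2 = z

include hN in
theorem complement (μ ν : Measure ℝ) [IsProbabilityMeasure μ] [IsProbabilityMeasure ν]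
    (hμ : IsInfConv (fun n => unifPts (N (2 * n)) (PP N (2 * n + 1))) μ)
    (hν : IsInfConv (fun n => unifPts (N (2 * n + 1)) (PP N (2 * n + 2))) ν)
    (Λ : Set ℝ) (hΛ : IsSpectrum μ Λ) : ∃ Λ' : Set ℝ, IsSpectrum ν Λ' ∧ DirectSumInt Λ Λ' := by
  have hpos : ∀ k, 0 < N k := fun k => by have := hN k; omega
  have hFTμ : ∀ ξ : ℝ, Tendsto (fun k => ∏ j ∈ Finset.range k,
      D (N (2 * j)) (ξ / PP N (2 * j + 1))) atTop (𝓝 (FT μ ξ)) := by
    intro ξ
    have := FT_tendsto (fun n => unifPts_prob (hpos (2 * n)) _) hμ ξ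
    simpa only [FT_unifPts] using this
  have hFTν : ∀ ξ : ℝ, Tendsto (fun k => ∏ j ∈ Finset.range k,
      D ((Sc hN).n j) (ξ / (Sc hN).b j)) atTop (𝓝 (FT ν ξ)) := by
    intro ξ
    have := FT_tendsto (fun n => unifPts_prob (hpos (2 * n + 1)) _) hν ξ
    simp only [FT_unifPts] at this
    exact this
  obtain ⟨l0, A, hA, rfl⟩ := spectrum_evenMax hN hFTμ hΛ
  have hP := (pars_of_tree (CC hN hA) 0 ν hFTν (good hN hA 0)).translate (-l0)
  refine ⟨_, spectrum_of_parseval ν _ hP.hc hP.h hP.hp, ?_, ?_⟩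
  · rintro _ ⟨n, -, rfl⟩ _ ⟨_, ⟨y, -, rfl⟩, rfl⟩
    exact ⟨n + y, by push_cast; ring⟩
  · intro z
    obtain ⟨a, ha, y, hy, hay⟩ := cover hN hA 0 z
    refine ⟨(l0 + a, y + -l0), ⟨⟨a, ha, rfl⟩, ⟨_, ⟨y, hy, rfl⟩, rfl⟩, ?_⟩, ?_⟩
    · rw [← hay]; push_cast; ring
    · rintro ⟨p, q⟩ ⟨⟨a', ha', rfl⟩, ⟨_, ⟨y', hy', rfl⟩, rfl⟩, h⟩
      have h' : (a' : ℝ) + y' = ((a + y : ℤ) : ℝ) := by
        rw [hay, ← h]; push_cast; ring
      have h2 : a' + y' = a + y := by exact_mod_cast h'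
      have h3 : y' = y := by
        by_contra hne
        obtain ⟨j, hj⟩ := hy
        obtain ⟨j', hj'⟩ := hy'
        obtain ⟨i, -, h4, h5⟩ := TT_sep (CC hN hA) 0 (max j j') y'
          (TT_mono' _ _ (le_max_right _ _) hj') y (TT_mono' _ _ (le_max_left _ _) hj) hne
        have h6 : Ty N (2 * i + 1) (y' - y) := ⟨h4, h5⟩
        have hne' : a ≠ a' := by
          rintro rfl
          exact hne (by linarith)
        obtain ⟨i', h7⟩ := hA.ev a ha a' ha' hne'
        have e : a - a' = y' - y := by linarith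
        rw [e] at h7
        have := Ty_unique h6 h7
        omega
      have h4 : a' = a := by linarith
      rw [h3, h4]

end Pool.Agent.Q83.Tree
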