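import Pool.Agent.Q83.Tree.Meas

/-! Lower bounds for the limit products. -/

set_option autoImplicit false

open Finset

namespace Pool.Agent.Q83.Tree

theorem Scale.a_growth (S : Scale) (j i : ℕ) : 4 ^ i * S.a j ≤ S.a (j + i) := by
  induction i with
  | zero => simp
  | succ i ih =>
    have h1 := S.h2 (j + i)
    have h2 := S.hb (j + i)
    have h3 := S.hn (j + i)
    have h4 : 2 * S.a (j + i) ≤ S.b (j + i) := by rw [h2]; exact Nat.mul_le_mul_right _ h3
    have h5 : 4 ^ (i + 1) * S.a j = 4 * (4 ^ i * S.a j) := by ring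
    rw [h5]
    have e : j + (i + 1) = j + i + 1 := by ring
    rw [e]
    linarith

variable {S : Scale} (c : Child S) (y0 : ℤ)

theorem WW_ge {t : ℕ → ℝ} {ξ : ℝ} {j : ℕ} {y : ℤ} (h : ∀ i, 1 - t i ≤ wt S ξ (j + i) y)
    (ht : ∀ i, 0 ≤ t i) (k : ℕ) : 1 - ∑ i ∈ range k, t i ≤ (sys c y0 ξ).WW j k y := by
  induction k with
  | zero => simp [Sys.WW]
  | succ k ih =>
    rw [Sys.WW_succ, sum_range_succ]
    have h1 : (sys c y0 ξ).w (j + k) y = wt S ξ (j + k) y := rfl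
    rw [h1]
    have h2 := (sys c y0 ξ).WW_nonneg j k y
    have h3 := (sys c y0 ξ).WW_le j k y
    have h4 := mul_le_mul_of_nonneg_left (h k) h2
    nlinarith [ht k]

theorem geo_sum (k : ℕ) : ∑ i ∈ range k, (1 / 16 : ℝ) ^ i ≤ 16 / 15 := by
  have h := geom_sum_eq (x := (1 / 16 : ℝ)) (by norm_num) k
  rw [h]
  have : (0 : ℝ) ≤ (1 / 16 : ℝ) ^ k := by positivity
  rw [div_le_iff_of_neg (by norm_num)]
  linarith

/-- the main lower bound -/
theorem V_ge {ξ : ℝ} {j : ℕ} {y : ℤ} {x : ℝ} (hx : ((ξ - y) / S.a j) ^ 2 ≤ x) (hx1 : x ≤ 1 / 10) :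
    1 - 4 * Real.pi ^ 2 / 3 * (16 / 15) * x ≤ (sys c y0 ξ).V j y := by
  have hx0 : 0 ≤ x := (sq_nonneg _).trans hx
  have hpi : Real.pi ^ 2 ≤ 10 := by
    have := Real.pi_lt_d2
    have := Real.pi_pos
    nlinarith
  refine ge_of_tendsto' ((sys c y0 ξ).V_tendsto j y) fun k => ?_
  have h1 : ∀ i, 1 - 4 * Real.pi ^ 2 / 3 * (x * (1 / 16) ^ i) ≤ wt S ξ (j + i) y := by
    intro i
    have hn : 0 < S.n (j + i) := by have := S.hn (j + i); omega
    have hpow : (0 : ℝ) ≤ (1 / 16) ^ i := by positivity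
    have hpow1 : (1 / 16 : ℝ) ^ i ≤ 1 := pow_le_one₀ (by norm_num) (by norm_num)
    refine norm_D_ge hn ?_ ?_
    · have ha : (0 : ℝ) < S.a j := by exact_mod_cast S.apos j
      have ha' : (0 : ℝ) < S.a (j + i) := by exact_mod_cast S.apos (j + i)
      have hn' : (S.n (j + i) : ℝ) ≠ 0 := by exact_mod_cast hn.ne'
      have e : (S.n (j + i) : ℝ) * ((ξ - y) / S.b (j + i)) = (ξ - y) / S.a (j + i) := by
        rw [S.hb]
        push_cast
        field_simp
      rw [e]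
      have h4 : (4 : ℝ) ^ i * S.a j ≤ S.a (j + i) := by exact_mod_cast S.a_growth j i
      have h5 : ((ξ - y) / S.a (j + i)) ^ 2 ≤ ((ξ - y) / (4 ^ i * S.a j)) ^ 2 := by
        rw [div_pow, div_pow]
        refine div_le_div_of_nonneg_left (sq_nonneg _) (by positivity) ?_
        exact pow_le_pow_left₀ (by positivity) h4 2
      refine h5.trans ?_
      have e2 : ((ξ - y) / (4 ^ i * S.a j)) ^ 2 = ((ξ - y) / S.a j) ^ 2 * (1 / 16) ^ i := by
        have : (16 : ℝ) ^ i = (4 ^ i) ^ 2 := by rw [← pow_mul, mul_comm, pow_mul]; norm_num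
        rw [one_div, inv_pow, this]
        field_simp
      rw [e2]
      exact mul_le_mul_of_nonneg_right hx hpow
    · have h6 : x * (1 / 16) ^ i ≤ 1 / 10 := by nlinarith
      have h7 : 0 ≤ x * (1 / 16) ^ i := by positivity
      nlinarith
  have h2 := WW_ge c y0 h1 (fun i => by positivity) k
  refine le_trans ?_ h2
  rw [← mul_sum, ← mul_sum]
  have h3 := mul_le_mul_of_nonneg_left (geo_sum k)
    (by positivity : 0 ≤ 4 * Real.pi ^ 2 / 3 * x)
  linarith

/-- settled targets have a limit product at least `1/20` -/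
theorem V_settled {ξ : ℝ} {j : ℕ} {y : ℤ} (hy : 4 * |(y : ℝ)| ≤ S.a j)
    (hξ : 100 * |ξ| ≤ S.a j) : 1 / 20 ≤ (sys c y0 ξ).V j y := by
  have ha : (0 : ℝ) < S.a j := by exact_mod_cast S.apos j
  have h1 : ((ξ - y) / S.a j) ^ 2 ≤ (26 / 100) ^ 2 := by
    rw [← sq_abs, abs_div, abs_of_pos ha]
    refine pow_le_pow_left₀ (by positivity) ?_ 2
    rw [div_le_iff₀ ha]
    have := abs_sub (ξ) (y : ℝ)
    linarith
  refine le_trans ?_ (V_ge c y0 h1 (by norm_num))
  have h2 := Real.pi_lt_d4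
  have h3 := Real.pi_pos
  nlinarith

end Pool.Agent.Q83.Tree
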