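import Pool.Agent.Q83.Tree.Res
import Pool.Agent.Q83.Frac.Complete

/-! Infinite convolutions, spectra, and the spectrum given by a good tree. -/

set_option autoImplicit false

open MeasureTheory Filter Topology Q83.Frac
open scoped ENNReal Real

namespace Pool.Agent.Q83.Tree

/-- the partial convolution `ρ 0 ∗ ρ 1 ∗ ⋯ ∗ ρ (n-1)` -/
noncomputable def partialConv (ρ : ℕ → Measure ℝ) : ℕ → Measure ℝ
  | 0 => Measure.dirac 0
  | n + 1 => (partialConv ρ n).conv (ρ n)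

/-- `μ` is the weak limit of the partial convolutions -/
def IsInfConv (ρ : ℕ → Measure ℝ) (μ : Measure ℝ) : Prop :=
  ∀ f : BoundedContinuousFunction ℝ ℝ,
    Tendsto (fun n => ∫ x, f x ∂(partialConv ρ n)) atTop (𝓝 (∫ x, f x ∂μ))

/-- the uniform measure on the points `m / b`, `0 ≤ m < n` -/
noncomputable def unifPts (n : ℕ) (b : ℝ) : Measure ℝ :=
  (n : ℝ≥0∞)⁻¹ • ∑ m ∈ Finset.range n, Measure.dirac ((m : ℝ) / b)

/-- `Λ` is a spectrum of `μ`: the exponentials `e^{2πiλx}`, `λ ∈ Λ`, form an orthonormal basis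
of `L²(μ)` -/
def IsSpectrum (μ : Measure ℝ) [IsProbabilityMeasure μ] (Λ : Set ℝ) : Prop :=
  Λ.Countable ∧ Orthonormal ℂ (fun t : Λ => el μ (t : ℝ)) ∧
    (Submodule.span ℂ (Set.range fun t : Λ => el μ (t : ℝ))).topologicalClosure = ⊤

theorem unifPts_prob {n : ℕ} (hn : 0 < n) (b : ℝ) : IsProbabilityMeasure (unifPts n b) := by
  refine ⟨?_⟩
  unfold unifPts
  rw [Measure.smul_apply, Measure.finsetSum_apply, smul_eq_mul]
  simp only [measure_univ, Finset.sum_const, Finset.card_range, nsmul_eq_mul, mul_one]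
  exact ENNReal.inv_mul_cancel (by exact_mod_cast hn.ne') (ENNReal.natCast_ne_top n)

theorem FT_unifPts (n : ℕ) (b ξ : ℝ) : FT (unifPts n b) ξ = D n (ξ / b) := by
  unfold FT unifPts D
  rw [integral_smul_measure, integral_finsetSum_measure]
  · rw [ENNReal.toReal_inv, ENNReal.toReal_natCast, Complex.real_smul]
    congr 1
    · push_cast; rfl
    · refine Finset.sum_congr rfl fun m _ => ?_
      rw [integral_dirac]
      unfold ee
      congr 1
      push_cast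
      ring
  · intro m _
    exact (integrable_dirac (by finiteness))

theorem FT_charFun (μ : Measure ℝ) (ξ : ℝ) : FT μ ξ = charFun μ (2 * π * ξ) := by
  unfold FT
  rw [charFun_apply_real]
  congr 1
  funext x
  unfold ee
  congr 1
  push_cast
  ring

theorem FT_conv (μ ν : Measure ℝ) [IsFiniteMeasure μ] [IsFiniteMeasure ν] (ξ : ℝ) :
    FT (μ.conv ν) ξ = FT μ ξ * FT ν ξ := by
  rw [FT_charFun, FT_charFun, FT_charFun, charFun_conv]

theorem partialConv_prob {ρ : ℕ → Measure ℝ} (h : ∀ n, IsProbabilityMeasure (ρ n)) (n : ℕ) :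
    IsProbabilityMeasure (partialConv ρ n) := by
  induction n with
  | zero => unfold partialConv; infer_instance
  | succ n ih =>
    unfold partialConv
    have := h n
    infer_instance

theorem FT_partialConv {ρ : ℕ → Measure ℝ} (h : ∀ n, IsProbabilityMeasure (ρ n)) (n : ℕ) (ξ : ℝ) :
    FT (partialConv ρ n) ξ = ∏ i ∈ Finset.range n, FT (ρ i) ξ := by
  induction n with
  | zero =>
    unfold partialConv FT
    rw [integral_dirac]
    unfold ee
    simp
  | succ n ih =>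
    have := h n
    have := partialConv_prob h n
    rw [Finset.prod_range_succ, ← ih]
    exact FT_conv _ _ _

theorem FT_re_im (μ : Measure ℝ) [IsProbabilityMeasure μ] (ξ : ℝ) :
    FT μ ξ = ((∫ x, Real.cos (2 * π * (ξ * x)) ∂μ : ℝ) : ℂ)
      + ((∫ x, Real.sin (2 * π * (ξ * x)) ∂μ : ℝ) : ℂ) * Complex.I := by
  unfold FT
  rw [← integral_complex_ofReal, ← integral_complex_ofReal, ← integral_mul_const, ← integral_add]
  · congr 1
    funext x
    rw [ee_eq, Complex.exp_mul_I]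
    push_cast
    rfl
  · refine Integrable.of_bound (by fun_prop) 1 (Eventually.of_forall fun x => ?_)
    rw [Complex.norm_real]
    exact Real.abs_cos_le_one _
  · refine Integrable.of_bound (by fun_prop) 1 (Eventually.of_forall fun x => ?_)
    rw [norm_mul, Complex.norm_real, Complex.norm_I, mul_one]
    exact Real.abs_sin_le_one _

theorem FT_tendsto {ρ : ℕ → Measure ℝ} (h : ∀ n, IsProbabilityMeasure (ρ n)) {μ : Measure ℝ}
    [IsProbabilityMeasure μ] (hμ : IsInfConv ρ μ) (ξ : ℝ) :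
    Tendsto (fun n => ∏ i ∈ Finset.range n, FT (ρ i) ξ) atTop (𝓝 (FT μ ξ)) := by
  have hc : Tendsto (fun n => ∫ x, Real.cos (2 * π * (ξ * x)) ∂(partialConv ρ n)) atTop
      (𝓝 (∫ x, Real.cos (2 * π * (ξ * x)) ∂μ)) :=
    hμ (BoundedContinuousFunction.ofNormedAddCommGroup (fun x => Real.cos (2 * π * (ξ * x)))
      (by fun_prop) 1 (fun x => Real.abs_cos_le_one _))
  have hs : Tendsto (fun n => ∫ x, Real.sin (2 * π * (ξ * x)) ∂(partialConv ρ n)) atTop
      (𝓝 (∫ x, Real.sin (2 * π * (ξ * x)) ∂μ)) :=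
    hμ (BoundedContinuousFunction.ofNormedAddCommGroup (fun x => Real.sin (2 * π * (ξ * x)))
      (by fun_prop) 1 (fun x => Real.abs_sin_le_one _))
  have e : ∀ n, ∏ i ∈ Finset.range n, FT (ρ i) ξ
      = ((∫ x, Real.cos (2 * π * (ξ * x)) ∂(partialConv ρ n) : ℝ) : ℂ)
      + ((∫ x, Real.sin (2 * π * (ξ * x)) ∂(partialConv ρ n) : ℝ) : ℂ) * Complex.I := by
    intro n
    have := partialConv_prob h n
    rw [← FT_partialConv h n, FT_re_im]
  simp_rw [e]
  rw [FT_re_im μ ξ]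
  exact ((Complex.continuous_ofReal.tendsto _).comp hc).add
    (((Complex.continuous_ofReal.tendsto _).comp hs).mul_const _)

/-- the Parseval form of being a spectrum -/
structure Pars (μ : Measure ℝ) (Λ : Set ℝ) : Prop where
  hc : Λ.Countable
  h : ∀ i ∈ Λ, ∀ j ∈ Λ, i ≠ j → FT μ (i - j) = 0
  hp : ∀ ξ : ℝ, HasSum (fun i : Λ => ‖FT μ (ξ - i)‖ ^ 2) 1

theorem Pars.translate {μ : Measure ℝ} {Λ : Set ℝ} (H : Pars μ Λ) (t : ℝ) :
    Pars μ ((fun x => x + t) '' Λ) := by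
  refine ⟨H.hc.image _, ?_, fun ξ => ?_⟩
  · rintro _ ⟨i, hi, rfl⟩ _ ⟨j, hj, rfl⟩ hij
    have : i + t - (j + t) = i - j := by ring
    rw [this]
    exact H.h i hi j hj (fun h => hij (by rw [h]))
  · have h1 := H.hp (ξ - t)
    let e : Λ ≃ ((fun x => x + t) '' Λ) := Equiv.Set.image _ Λ (add_left_injective t)
    rw [← e.hasSum_iff]
    convert h1 using 2
    rename_i i
    have : ξ - (((e i : ((fun x => x + t) '' Λ)) : ℝ)) = ξ - t - (i : ℝ) := by
      change ξ - ((i : ℝ) + t) = _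
      ring
    rw [Function.comp_apply, this]

theorem spectrum_of_parseval (μ : Measure ℝ) [IsProbabilityMeasure μ] (Λ : Set ℝ)
    (hc : Λ.Countable) (h : ∀ i ∈ Λ, ∀ j ∈ Λ, i ≠ j → FT μ (i - j) = 0)
    (hp : ∀ ξ : ℝ, HasSum (fun i : Λ => ‖FT μ (ξ - i)‖ ^ 2) 1) : IsSpectrum μ Λ := by
  have h' : ∀ i j : Λ, i ≠ j → FT μ ((i : ℝ) - j) = 0 := fun i j hij =>
    h i i.2 j j.2 (fun e => hij (Subtype.ext e))
  refine ⟨hc, orthonormal_el μ (fun t : Λ => (t : ℝ)) h', ?_⟩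
  rw [Submodule.topologicalClosure_eq_top_iff, Submodule.eq_bot_iff]
  intro f hf
  rw [Submodule.mem_orthogonal] at hf
  have h1 : (f : ℝ → ℂ) =ᵐ[μ] 0 := by
    refine complete_of_parseval μ (fun t : Λ => (t : ℝ)) h' hp f (Lp.memLp f) fun i => ?_
    have h2 := hf (el μ (i : ℝ)) (Submodule.subset_span ⟨i, rfl⟩)
    have h3 : inner ℂ (el μ (i : ℝ)) ((Lp.memLp f).toLp f) = ∫ x, f x * ee (-(i : ℝ)) x ∂μ := by
      unfold el
      rw [inner_toLp'']
      congr 1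
      funext x
      rw [ee_conj, mul_comm]
    rw [← h3, Lp.toLp_coeFn]
    exact h2
  refine Lp.ext ?_
  filter_upwards [h1, Lp.coeFn_zero ℂ 2 μ] with x hx hx2
  rw [hx, hx2]

variable {S : Scale} (c : Child S) (y0 : ℤ)

/-- all targets -/
def YY : Set ℤ := {y | ∃ j, y ∈ TT c y0 j}

theorem prod_zero_of {S : Scale} {i : ℕ} {y y' : ℤ} (h1 : (S.a i : ℤ) ∣ y - y')
    (h2 : ¬ (S.b i : ℤ) ∣ y - y') : D (S.n i) (((y : ℝ) - y') / S.b i) = 0 := by
  have hn : (S.n i : ℝ) ≠ 0 := by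
    have := S.hn i
    exact_mod_cast (by omega : S.n i ≠ 0)
  have ha : (S.a i : ℝ) ≠ 0 := by exact_mod_cast (S.apos i).ne'
  have hb : (S.b i : ℝ) ≠ 0 := by exact_mod_cast (S.bpos i).ne'
  rw [D_eq_zero (by have := S.hn i; omega)]
  constructor
  · obtain ⟨k, hk⟩ := h1
    refine ⟨k, ?_⟩
    have : (y : ℝ) - y' = S.a i * k := by exact_mod_cast hk
    rw [this, S.hb]
    push_cast
    field_simp
  · rintro ⟨k, hk⟩
    rw [div_eq_iff hb] at hk
    refine h2 ⟨k, ?_⟩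
    have : (y : ℝ) - y' = ((k * S.b i : ℤ) : ℝ) := by push_cast; exact hk
    have : y - y' = k * S.b i := by exact_mod_cast this
    rw [this]; ring

theorem pars_of_tree (ρ : Measure ℝ)
    (hFT : ∀ ξ : ℝ, Tendsto (fun k => ∏ j ∈ Finset.range k, D (S.n j) (ξ / S.b j)) atTop
      (𝓝 (FT ρ ξ)))
    (hGood : ∀ ξ : ℝ, ∃ δ : ℝ, 0 < δ ∧ ∃ j0, ∀ j, j0 ≤ j → ∀ y ∈ TT c y0 j,
      (sys c y0 ξ).Good δ j y) :
    Pars ρ ((fun y : ℤ => (y : ℝ)) '' YY c y0) := by
  refine ⟨(Set.to_countable (YY c y0)).image _, ?_, ?_⟩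
  · rintro _ ⟨y, ⟨j, hj⟩, rfl⟩ _ ⟨y', ⟨j', hj'⟩, rfl⟩ hne
    have hyy : y ≠ y' := fun h => hne (by rw [h])
    obtain ⟨i, -, h1, h2⟩ := TT_sep c y0 (max j j') y (TT_mono' c y0 (le_max_left _ _) hj) y'
      (TT_mono' c y0 (le_max_right _ _) hj') hyy
    refine tendsto_nhds_unique (hFT _) (tendsto_const_nhds.congr' ?_)
    filter_upwards [eventually_gt_atTop i] with k hk
    exact (Finset.prod_eq_zero (Finset.mem_range.2 hk) (prod_zero_of h1 h2)).symm
  · intro ξ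
    obtain ⟨δ, hδ, j0, hG⟩ := hGood ξ
    have h1 := (sys c y0 ξ).tree_sum (by simp [sys, TT]) hδ hG
    have hV : ∀ y, (sys c y0 ξ).V 0 y = ‖FT ρ (ξ - y)‖ ^ 2 := by
      intro y
      refine tendsto_nhds_unique ((sys c y0 ξ).V_tendsto 0 y) ?_
      have h2 := ((hFT (ξ - y)).norm).pow 2
      refine h2.congr fun k => ?_
      rw [norm_prod, ← Finset.prod_pow]
      unfold Sys.WW
      refine Finset.prod_congr rfl fun i _ => ?_
      rw [zero_add]
      rfl
    simp_rw [hV] at h1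
    change Tendsto (fun n => ∑ y ∈ TT c y0 n, ‖FT ρ (ξ - y)‖ ^ 2) atTop (𝓝 1) at h1
    -- move to the subtype
    let κ := ((fun y : ℤ => (y : ℝ)) '' YY c y0)
    let e : ∀ n, {y // y ∈ TT c y0 n} → κ := fun n y => ⟨((y : ℤ) : ℝ), ⟨y, ⟨n, y.2⟩, rfl⟩⟩
    let s : ℕ → Finset κ := fun n => Finset.univ.image (e n)
    have hs_sum : ∀ n, ∑ i ∈ s n, ‖FT ρ (ξ - (i : ℝ))‖ ^ 2
        = ∑ y ∈ TT c y0 n, ‖FT ρ (ξ - y)‖ ^ 2 := by
      intro n
      rw [Finset.sum_image]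
      · rw [← Finset.sum_coe_sort (TT c y0 n)]
      · intro a _ b _ hab
        have : ((a : ℤ) : ℝ) = ((b : ℤ) : ℝ) := congrArg Subtype.val hab
        exact Subtype.ext (by exact_mod_cast this)
    have hs_mem : ∀ n (i : κ), i ∈ s n ↔ ∃ y ∈ TT c y0 n, ((y : ℤ) : ℝ) = i := by
      intro n i
      rw [Finset.mem_image]
      constructor
      · rintro ⟨y, _, rfl⟩
        exact ⟨y, y.2, rfl⟩
      · rintro ⟨y, hy, h⟩
        exact ⟨⟨y, hy⟩, Finset.mem_univ _, Subtype.ext h⟩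
    have hs_mono : Monotone s := by
      intro n n' hn i hi
      obtain ⟨y, hy, h⟩ := (hs_mem n i).1 hi
      exact (hs_mem n' i).2 ⟨y, TT_mono' c y0 hn hy, h⟩
    have hs_top : Tendsto s atTop atTop := by
      refine tendsto_atTop_finset_of_monotone hs_mono fun i => ?_
      obtain ⟨y, ⟨n, hn⟩, h⟩ := i.2
      exact ⟨n, (hs_mem n i).2 ⟨y, hn, h⟩⟩
    have h3 : Tendsto (fun n => ∑ i ∈ s n, ‖FT ρ (ξ - (i : ℝ))‖ ^ 2) atTop (𝓝 1) := by
      simp_rw [hs_sum]; exact h1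
    have hmono : Monotone (fun n => ∑ i ∈ s n, ‖FT ρ (ξ - (i : ℝ))‖ ^ 2) := fun n n' hn =>
      Finset.sum_le_sum_of_subset_of_nonneg (hs_mono hn) fun _ _ _ => by positivity
    have hle : ∀ n, ∑ i ∈ s n, ‖FT ρ (ξ - (i : ℝ))‖ ^ 2 ≤ 1 := fun n => hmono.ge_of_tendsto h3 n
    have hsum : Summable (fun i : κ => ‖FT ρ (ξ - (i : ℝ))‖ ^ 2) := by
      refine summable_of_sum_le (fun _ => by positivity) (c := 1) fun u => ?_
      obtain ⟨n, hn⟩ := (hs_top.eventually (eventually_ge_atTop u)).exists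
      exact (Finset.sum_le_sum_of_subset_of_nonneg hn fun _ _ _ => by positivity).trans (hle n)
    have h4 := hsum.hasSum
    have h5 := h4.comp hs_top
    rw [tendsto_nhds_unique h5 h3] at h4
    exact h4

end Pool.Agent.Q83.Tree
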