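import Pool.Agent.Q83.Tree.Abs
import Pool.Agent.Q83.Tree.Dir

/-! Trees of integer targets attached to a sequence of scales. -/

set_option autoImplicit false

open Finset

namespace Pool.Agent.Q83.Tree

/-- scales `a j ∣ b j ∣ a (j+1) ∣ ...` with `b j = n j * a j` -/
structure Scale where
  a : ℕ → ℕ
  b : ℕ → ℕ
  n : ℕ → ℕ
  apos : ∀ j, 0 < a j
  hn : ∀ j, 2 ≤ n j
  hb : ∀ j, b j = n j * a j
  hdvd : ∀ j, b j ∣ a (j + 1)
  h2 : ∀ j, 2 * b j ≤ a (j + 1)

namespace Scale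

variable (S : Scale)

theorem bpos (j : ℕ) : 0 < S.b j := by
  rw [S.hb]
  exact Nat.mul_pos (by have := S.hn j; omega) (S.apos j)

theorem a_dvd_b (j : ℕ) : S.a j ∣ S.b j := ⟨S.n j, by rw [S.hb, mul_comm]⟩

theorem a_dvd_succ (j : ℕ) : S.a j ∣ S.a (j + 1) := (S.a_dvd_b j).trans (S.hdvd j)

theorem a_dvd {i j : ℕ} (h : i ≤ j) : S.a i ∣ S.a j := by
  induction j, h using Nat.le_induction with
  | base => exact dvd_rfl
  | succ j _ ih => exact ih.trans (S.a_dvd_succ j)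

theorem b_dvd {i j : ℕ} (h : i < j) : S.b i ∣ S.a j := (S.hdvd i).trans (S.a_dvd h)

end Scale

/-- child functions -/
structure Child (S : Scale) where
  R : ℕ → ℤ → ℕ → ℤ
  R0 : ∀ j y, R j y 0 = y
  Rm : ∀ j y m, (S.b j : ℤ) ∣ R j y m - (y + m * S.a j)

variable {S : Scale} (c : Child S) (y0 : ℤ)

/-- the targets -/
def TT : ℕ → Finset ℤ
  | 0 => {y0}
  | j + 1 => (TT j).biUnion fun y => (range (S.n j)).image (c.R j y)

theorem Child.dvd_a (j : ℕ) (y : ℤ) (m : ℕ) : (S.a j : ℤ) ∣ c.R j y m - y := by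
  have h1 := (Int.natCast_dvd_natCast.2 (S.a_dvd_b j)).trans (c.Rm j y m)
  have h2 : (S.a j : ℤ) ∣ (m : ℤ) * S.a j := Dvd.intro_left _ rfl
  have := dvd_add h1 h2
  have e : c.R j y m - (y + m * S.a j) + (m : ℤ) * S.a j = c.R j y m - y := by ring
  rwa [e] at this

theorem mem_TT_succ {j : ℕ} {y : ℤ} : y ∈ TT c y0 (j + 1) ↔
    ∃ u ∈ TT c y0 j, ∃ m < S.n j, c.R j u m = y := by
  simp [TT]

theorem TT_mono (j : ℕ) : TT c y0 j ⊆ TT c y0 (j + 1) := fun y hy =>
  (mem_TT_succ c y0).2 ⟨y, hy, 0, by have := S.hn j; omega, c.R0 j y⟩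

theorem TT_mono' {i j : ℕ} (h : i ≤ j) : TT c y0 i ⊆ TT c y0 j := by
  induction j, h using Nat.le_induction with
  | base => exact Subset.refl _
  | succ j _ ih => exact ih.trans (TT_mono c y0 j)

theorem R_inj {j : ℕ} {u : ℤ} {m m' : ℕ} (hm : m < S.n j) (hm' : m' < S.n j)
    (h : (S.b j : ℤ) ∣ c.R j u m - c.R j u m') : m = m' := by
  have h1 := c.Rm j u m
  have h2 := c.Rm j u m'
  have h3 : (S.b j : ℤ) ∣ ((m : ℤ) - m') * S.a j := by
    have := dvd_add (dvd_sub h h1) h2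
    have e : c.R j u m - c.R j u m' - (c.R j u m - (u + m * S.a j))
        + (c.R j u m' - (u + m' * S.a j)) = ((m : ℤ) - m') * S.a j := by ring
    rwa [e] at this
  rw [S.hb] at h3
  push_cast at h3
  have ha : (S.a j : ℤ) ≠ 0 := by exact_mod_cast (S.apos j).ne'
  have h4 : (S.n j : ℤ) ∣ (m : ℤ) - m' := (mul_dvd_mul_iff_right ha).1 h3
  have h5 : |(m : ℤ) - m'| < S.n j := by rw [abs_lt]; omega
  have h6 := Int.eq_zero_of_abs_lt_dvd h4 h5
  omega

theorem TT_sep (j : ℕ) : ∀ y ∈ TT c y0 j, ∀ y' ∈ TT c y0 j, y ≠ y' →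
    ∃ i < j, (S.a i : ℤ) ∣ y - y' ∧ ¬ (S.b i : ℤ) ∣ y - y' := by
  induction j with
  | zero =>
    intro y hy y' hy' h
    simp only [TT, mem_singleton] at hy hy'
    exact absurd (hy.trans hy'.symm) h
  | succ j ih =>
    intro y hy y' hy' h
    obtain ⟨u, hu, m, hm, rfl⟩ := (mem_TT_succ c y0).1 hy
    obtain ⟨v, hv, m', hm', rfl⟩ := (mem_TT_succ c y0).1 hy'
    by_cases huv : u = v
    · subst huv
      refine ⟨j, Nat.lt_succ_self j, ?_, fun hd => ?_⟩
      · have := dvd_sub (c.dvd_a j u m) (c.dvd_a j u m')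
        have e : c.R j u m - u - (c.R j u m' - u) = c.R j u m - c.R j u m' := by ring
        rwa [e] at this
      · exact h (by rw [R_inj c hm hm' hd])
    · obtain ⟨i, hi, h1, h2⟩ := ih u hu v hv huv
      have hb : (S.b i : ℤ) ∣ S.a j := Int.natCast_dvd_natCast.2 (S.b_dvd hi)
      have h3 : (S.b i : ℤ) ∣ (c.R j u m - c.R j v m') - (u - v) := by
        have := dvd_sub (hb.trans (c.dvd_a j u m)) (hb.trans (c.dvd_a j v m'))
        have e : c.R j u m - u - (c.R j v m' - v) = (c.R j u m - c.R j v m') - (u - v) := by ring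
        rwa [e] at this
      refine ⟨i, by omega, ?_, fun hd => h2 ?_⟩
      · have h4 := (Int.natCast_dvd_natCast.2 (S.a_dvd_b i)).trans h3
        have := dvd_add h4 h1
        have e : c.R j u m - c.R j v m' - (u - v) + (u - v) = c.R j u m - c.R j v m' := by ring
        rwa [e] at this
      · have := dvd_sub hd h3
        have e : c.R j u m - c.R j v m' - (c.R j u m - c.R j v m' - (u - v)) = u - v := by ring
        rwa [e] at this

theorem TT_unique {j : ℕ} {u v : ℤ} (hu : u ∈ TT c y0 j) (hv : v ∈ TT c y0 j)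
    (h : (S.a j : ℤ) ∣ u - v) : u = v := by
  by_contra huv
  obtain ⟨i, hi, h1, h2⟩ := TT_sep c y0 j u hu v hv huv
  exact h2 ((Int.natCast_dvd_natCast.2 (S.b_dvd hi)).trans h)

open Classical in
/-- parent -/
noncomputable def parent (j : ℕ) (y : ℤ) : ℤ :=
  if h : ∃ u ∈ TT c y0 j, (S.a j : ℤ) ∣ y - u then h.choose else y

theorem parent_spec {j : ℕ} {y u : ℤ} (hu : u ∈ TT c y0 j) (h : (S.a j : ℤ) ∣ y - u) :
    parent c y0 j y = u := by
  have hex : ∃ u ∈ TT c y0 j, (S.a j : ℤ) ∣ y - u := ⟨u, hu, h⟩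
  unfold parent
  rw [dif_pos hex]
  obtain ⟨h1, h2⟩ := hex.choose_spec
  refine TT_unique c y0 h1 hu ?_
  have := dvd_sub h h2
  have e : y - u - (y - hex.choose) = hex.choose - u := by ring
  rwa [e] at this

theorem parent_R {j : ℕ} {u : ℤ} (hu : u ∈ TT c y0 j) (m : ℕ) :
    parent c y0 j (c.R j u m) = u := parent_spec c y0 hu (c.dvd_a j u m)

/-- weights -/
noncomputable def wt (S : Scale) (ξ : ℝ) (j : ℕ) (y : ℤ) : ℝ := ‖D (S.n j) ((ξ - y) / S.b j)‖ ^ 2

theorem wt_congr (ξ : ℝ) {j : ℕ} {y y' : ℤ} (h : (S.b j : ℤ) ∣ y - y') :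
    wt S ξ j y = wt S ξ j y' := by
  obtain ⟨k, hk⟩ := h
  have hb : (S.b j : ℝ) ≠ 0 := by exact_mod_cast (S.bpos j).ne'
  have e : (ξ - y) / S.b j = (ξ - y') / S.b j + ((-k : ℤ) : ℝ) := by
    have : (y : ℝ) - y' = S.b j * k := by exact_mod_cast hk
    field_simp
    push_cast
    linarith
  unfold wt
  rw [e, D_add_int]

theorem filter_parent {j : ℕ} {u : ℤ} (hu : u ∈ TT c y0 j) :
    (TT c y0 (j + 1)).filter (fun y' => parent c y0 j y' = u) = (range (S.n j)).image (c.R j u) := by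
  ext y
  rw [mem_filter, mem_image]
  constructor
  · rintro ⟨h1, h2⟩
    obtain ⟨v, hv, m, hm, rfl⟩ := (mem_TT_succ c y0).1 h1
    rw [parent_R c y0 hv] at h2
    subst h2
    exact ⟨m, mem_range.2 hm, rfl⟩
  · rintro ⟨m, hm, rfl⟩
    exact ⟨(mem_TT_succ c y0).2 ⟨u, hu, m, mem_range.1 hm, rfl⟩, parent_R c y0 hu m⟩

/-- the system -/
noncomputable def sys (ξ : ℝ) : Sys ℤ where
  T := TT c y0
  mono := TT_mono c y0
  par := parent c y0
  par_mem j y hy := by
    obtain ⟨u, hu, m, hm, rfl⟩ := (mem_TT_succ c y0).1 hy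
    rw [parent_R c y0 hu]
    exact hu
  par_self j y hy := parent_spec c y0 hy (by simp)
  w := wt S ξ
  w0 j y := sq_nonneg _
  w1 j y := by
    have h := norm_D_le (n := S.n j) (by have := S.hn j; omega) ((ξ - y) / S.b j)
    unfold wt
    nlinarith [norm_nonneg (D (S.n j) ((ξ - y) / S.b j))]
  compat j y i hy hi := by
    obtain ⟨u, hu, m, hm, rfl⟩ := (mem_TT_succ c y0).1 hy
    rw [parent_R c y0 hu]
    exact wt_congr ξ ((Int.natCast_dvd_natCast.2 (S.b_dvd hi)).trans (c.dvd_a j u m))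
  sum1 j u hu := by
    rw [filter_parent c y0 hu, sum_image]
    · have h1 : ∀ m ∈ range (S.n j), wt S ξ j (c.R j u m)
          = ‖D (S.n j) ((ξ - u) / S.b j - m / S.n j)‖ ^ 2 := by
        intro m _
        rw [wt_congr ξ (c.Rm j u m)]
        unfold wt
        have ha : (S.a j : ℝ) ≠ 0 := by exact_mod_cast (S.apos j).ne'
        have hn : (S.n j : ℝ) ≠ 0 := by
          have := S.hn j
          exact_mod_cast (by omega : S.n j ≠ 0)
        have e : (ξ - ((u + m * S.a j : ℤ) : ℝ)) / S.b j = (ξ - u) / S.b j - m / S.n j := by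
          rw [S.hb]
          push_cast
          field_simp
          ring
        rw [e]
      rw [sum_congr rfl h1]
      exact sum_D (by have := S.hn j; omega) _
    · intro m hm m' hm' h
      refine R_inj c (mem_range.1 hm) (mem_range.1 hm') (u := u) ?_
      rw [h, sub_self]
      exact dvd_zero _

end Pool.Agent.Q83.Tree
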